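import Mathlib

/-!
# Definitions for the restricted projection theorem on asymptotically flat sets
-/

namespace RPF

open Set Module Filter
open scoped Topology

variable {n m : ℕ}

/-- `P` is a subspace-nondegenerate family of linear maps `ℝ^n → ℝ^m`, `t ∈ [0,1]`: for every linear
subspace `π` of `ℝ^n` one has `dim P_t(π) = min(dim π, m)` for all but finitely many `t ∈ [0,1]`. -/
def SubspaceNondegenerate
    (P : ℝ → (EuclideanSpace ℝ (Fin n) →ₗ[ℝ] EuclideanSpace ℝ (Fin m))) : Prop :=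
  ∀ π : Submodule ℝ (EuclideanSpace ℝ (Fin n)),
    {t ∈ Icc (0 : ℝ) 1 | finrank ℝ (π.map (P t)) ≠ min (finrank ℝ π) m}.Finite

/-- the family `P` is analytic: for every `x ∈ ℝ^n` all coordinates of `P_t(x)` (in particular all
matrix entries of `P_t`) are real-analytic functions of `t` on `[0,1]`. -/
def AnalyticFamily
    (P : ℝ → (EuclideanSpace ℝ (Fin n) →ₗ[ℝ] EuclideanSpace ℝ (Fin m))) : Prop :=
  ∀ (x : EuclideanSpace ℝ (Fin n)) (i : Fin m), AnalyticOn ℝ (fun t => P t x i) (Icc (0 : ℝ) 1)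

/-- `B` is `β`-flat at the point `x` and the scale `2^{-k}`: for some linear subspace `V` of
dimension at most `m`, every `y ∈ B` with `|y - x| ≤ 2^{-k}` lies at distance at most `β 2^{-k}`
from `x + V`. -/
def FlatAtScale (m : ℕ) (B : Set (EuclideanSpace ℝ (Fin n))) (x : EuclideanSpace ℝ (Fin n))
    (k : ℕ) (β : ℝ) : Prop :=
  ∃ V : Submodule ℝ (EuclideanSpace ℝ (Fin n)), finrank ℝ V ≤ m ∧
    ∀ y ∈ B, ‖y - x‖ ≤ (2 : ℝ)⁻¹ ^ k → ∃ v ∈ V, ‖y - x - v‖ ≤ β * (2 : ℝ)⁻¹ ^ k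

/-- `B` is asymptotically `m`-flat at `x` with exponent `a`: for some constant `C`, the set of
those `k` for which `B` is not `C / (⌊log₂ k⌋ + 1)^a`-flat at `x` and the scale `2^{-k}` has
density zero in `ℕ`. -/
def AsympFlat (m a : ℕ) (B : Set (EuclideanSpace ℝ (Fin n))) (x : EuclideanSpace ℝ (Fin n)) :
    Prop :=
  ∃ C : ℝ, Tendsto (fun K : ℕ =>
    (({k : ℕ | k < K ∧ ¬ FlatAtScale m B x k (C / ((Nat.log 2 k : ℝ) + 1) ^ a)}.ncard : ℝ) / K))
    atTop (𝓝 0)

end RPF
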