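import Mathlib

/-!
# A multi-scale counting argument for fibres of linear maps
-/

namespace RPF

open Set MeasureTheory Filter Metric
open scoped Topology ENNReal NNReal

section tree

variable {E F : Type*} [NormedAddCommGroup E] [NormedSpace ℝ E]
  [NormedAddCommGroup F] [NormedSpace ℝ F]

/-- `N` sets of half size cover a set -/
def Halving (E : Type*) [NormedAddCommGroup E] (N : ℕ) : Prop :=
  ∀ r : ℝ, 0 < r → ∀ S : Set E, (∀ x ∈ S, ∀ y ∈ S, ‖x - y‖ < r) →
    ∃ C : Fin N → Set E, S ⊆ ⋃ i, C i ∧ ∀ i, ∀ x ∈ C i, ∀ y ∈ C i, ‖x - y‖ < r / 2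

lemma exists_halving (E : Type*) [NormedAddCommGroup E] [NormedSpace ℝ E]
    [FiniteDimensional ℝ E] : ∃ N : ℕ, 1 ≤ N ∧ Halving E N := by
  have : ProperSpace E := FiniteDimensional.proper ℝ E
  obtain ⟨t, -, htf, htc⟩ := (isCompact_closedBall (0 : E) 1).finite_cover_balls
    (show (0 : ℝ) < 1 / 5 by norm_num)
  have h0 : (0 : E) ∈ ⋃ x ∈ t, ball x (1 / 5) := htc (by simp)
  have htne : t.Nonempty := by
    obtain ⟨x, hx, -⟩ := mem_iUnion₂.1 h0
    exact ⟨x, hx⟩
  set T := htf.toFinset with hT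
  have hcard : 1 ≤ T.card := by
    rw [Nat.one_le_iff_ne_zero, Finset.card_ne_zero]
    obtain ⟨x, hx⟩ := htne
    exact ⟨x, by simpa [hT] using hx⟩
  refine ⟨T.card, hcard, fun r hr S hS => ?_⟩
  rcases S.eq_empty_or_nonempty with rfl | ⟨y0, hy0⟩
  · exact ⟨fun _ => ∅, by simp, by simp⟩
  set e := T.equivFin with he
  refine ⟨fun i => {z | ‖r⁻¹ • (z - y0) - (e.symm i : E)‖ < 1 / 5}, ?_, ?_⟩
  · intro z hz
    have h1 : r⁻¹ • (z - y0) ∈ closedBall (0 : E) 1 := by
      rw [mem_closedBall, dist_zero_right, norm_smul, norm_inv, Real.norm_of_nonneg hr.le,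
        inv_mul_le_iff₀ hr, mul_one]
      exact (hS z hz y0 hy0).le
    obtain ⟨x, hx, hzx⟩ := mem_iUnion₂.1 (htc h1)
    rw [mem_iUnion]
    refine ⟨e ⟨x, by simpa [hT] using hx⟩, ?_⟩
    simp only [Equiv.symm_apply_apply, mem_ofPred_eq]
    rwa [mem_ball, dist_eq_norm] at hzx
  · intro i x hx y hy
    have h1 : r⁻¹ • (x - y) = (r⁻¹ • (x - y0) - (e.symm i : E)) -
        (r⁻¹ • (y - y0) - (e.symm i : E)) := by
      rw [sub_sub_sub_cancel_right, ← smul_sub, sub_sub_sub_cancel_right]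
    have h2 : ‖r⁻¹ • (x - y)‖ < 2 / 5 := by
      rw [h1]
      have h3 : ‖r⁻¹ • (x - y0) - (e.symm i : E)‖ < 1 / 5 := hx
      have h4 : ‖r⁻¹ • (y - y0) - (e.symm i : E)‖ < 1 / 5 := hy
      calc _ ≤ _ := norm_sub_le _ _
        _ < 2 / 5 := by linarith
    rw [norm_smul, norm_inv, Real.norm_of_nonneg hr.le, inv_mul_lt_iff₀ hr] at h2
    linarith

/-- the scale `2^{-k}` is good for `x`: the map `L` is injective with constant `lam^k` on pairs
`x, y` with `2^{-(k+3)} < |y - x| < 2^{-k}` -/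
def Good (L : E →ₗ[ℝ] F) (B : Set E) (lam : ℝ) (x : E) (k : ℕ) : Prop :=
  ∀ y ∈ B, (2 : ℝ)⁻¹ ^ (k + 3) < ‖y - x‖ → ‖y - x‖ < (2 : ℝ)⁻¹ ^ k → lam ^ k ≤ ‖L (y - x)‖

open Classical in
/-- **Tree counting lemma.** -/
lemma tree {N : ℕ} (hN : Halving E N) (L : E →ₗ[ℝ] F) (B : Set E)
    (lam : ℝ) (hlam : 0 < lam) (hlam1 : lam < 1) (K : ℕ) :
    ∀ (j k0 q : ℕ) (S : Set E), k0 + j = K → S ⊆ B →
      (∀ x ∈ S, ∀ y ∈ S, ‖x - y‖ < (2 : ℝ)⁻¹ ^ k0) →
      (∀ x ∈ S, ∀ y ∈ S, ‖L (x - y)‖ < lam ^ K) →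
      (∀ x ∈ S, ((Finset.Ico k0 K).filter (fun k => ¬ Good L B lam x k)).card ≤ q) →
      ∃ C : Finset (Set E), C.card ≤ N ^ q ∧ S ⊆ ⋃ T ∈ C, T ∧
        ∀ T ∈ C, ∀ x ∈ T, ∀ y ∈ T, ‖x - y‖ < (2 : ℝ)⁻¹ ^ K := by
  intro j
  induction j with
  | zero =>
    intro k0 q S hk hSB hS _ hbad
    rcases S.eq_empty_or_nonempty with rfl | hne
    · exact ⟨∅, by simp, by simp, by simp⟩
    · by_cases hN0 : N = 0
      · -- impossible: a nonempty set cannot be covered by no set
        exfalso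
        subst hN0
        obtain ⟨C, hC, -⟩ := hN 1 one_pos {(0 : E)} (by simp)
        have := hC (mem_singleton (0 : E))
        simp at this
      · refine ⟨{S}, ?_, by simp, ?_⟩
        · simp only [Finset.card_singleton]
          exact Nat.one_le_pow _ _ (Nat.pos_of_ne_zero hN0)
        · intro T hT x hx y hy
          rw [Finset.mem_singleton] at hT
          subst hT
          have : k0 = K := by omega
          subst this
          exact hS x hx y hy
  | succ j ih =>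
    intro k0 q S hk hSB hS hL hbad
    by_cases hex : ∃ y ∈ S, Good L B lam y k0
    · obtain ⟨y, hyS, hy⟩ := hex
      have h1 : ∀ z ∈ S, ‖z - y‖ ≤ (2 : ℝ)⁻¹ ^ (k0 + 3) := by
        intro z hz
        by_contra hcon
        rw [not_le] at hcon
        have h2 := hy z (hSB hz) hcon (hS z hz y hyS)
        have h3 := hL z hz y hyS
        have h4 : lam ^ K ≤ lam ^ k0 := pow_le_pow_of_le_one hlam.le hlam1.le (by omega)
        linarith
      refine ih (k0 + 1) q S (by omega) hSB ?_ hL ?_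
      · intro z hz z' hz'
        have h2 := h1 z hz
        have h3 := h1 z' hz'
        have h4 : ‖z - z'‖ ≤ ‖z - y‖ + ‖z' - y‖ := by
          have : z - z' = (z - y) - (z' - y) := by abel
          rw [this]
          exact norm_sub_le _ _
        have h5 : (2 : ℝ)⁻¹ ^ (k0 + 1) = (2 : ℝ)⁻¹ ^ (k0 + 3) * 4 := by
          rw [pow_add, pow_add]
          norm_num
          ring
        have h6 : (0 : ℝ) < (2 : ℝ)⁻¹ ^ (k0 + 3) := by positivity
        linarith
      · intro x hx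
        refine le_trans (Finset.card_le_card ?_) (hbad x hx)
        apply Finset.filter_subset_filter
        exact Finset.Ico_subset_Ico_left (Nat.le_succ _)
    · push Not at hex
      rcases S.eq_empty_or_nonempty with rfl | ⟨x0, hx0⟩
      · exact ⟨∅, by simp, by simp, by simp⟩
      have hcount : ∀ x ∈ S, ((Finset.Ico (k0 + 1) K).filter
          (fun k => ¬ Good L B lam x k)).card + 1 ≤ q := by
        intro x hx
        refine le_trans ?_ (hbad x hx)
        rw [← Finset.card_insert_of_notMem (a := k0)]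
        · apply Finset.card_le_card
          intro k hk'
          rw [Finset.mem_insert, Finset.mem_filter, Finset.mem_Ico] at hk'
          rw [Finset.mem_filter, Finset.mem_Ico]
          rcases hk' with rfl | ⟨⟨h1, h2⟩, h3⟩
          · exact ⟨⟨le_rfl, by omega⟩, hex x hx⟩
          · exact ⟨⟨by omega, h2⟩, h3⟩
        · simp
      have hq : 1 ≤ q := le_trans (Nat.le_add_left _ _) (hcount x0 hx0)
      obtain ⟨C, hCc, hCd⟩ := hN ((2 : ℝ)⁻¹ ^ k0) (by positivity) S hS
      have hstep : ∀ i : Fin N, ∃ D : Finset (Set E), D.card ≤ N ^ (q - 1) ∧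
          (S ∩ C i) ⊆ ⋃ T ∈ D, T ∧ ∀ T ∈ D, ∀ x ∈ T, ∀ y ∈ T, ‖x - y‖ < (2 : ℝ)⁻¹ ^ K := by
        intro i
        refine ih (k0 + 1) (q - 1) (S ∩ C i) (by omega) (inter_subset_left.trans hSB) ?_ ?_ ?_
        · intro x hx y hy
          have := hCd i x hx.2 y hy.2
          have h5 : (2 : ℝ)⁻¹ ^ (k0 + 1) = (2 : ℝ)⁻¹ ^ k0 / 2 := by
            rw [pow_succ]
            ring
          rw [h5]
          exact this
        · intro x hx y hy
          exact hL x hx.1 y hy.1
        · intro x hx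
          have := hcount x hx.1
          omega
      choose D hD1 hD2 hD3 using hstep
      refine ⟨Finset.univ.biUnion D, ?_, ?_, ?_⟩
      · refine (Finset.card_biUnion_le_card_mul _ _ _ (fun i _ => hD1 i)).trans ?_
        rw [Finset.card_univ, Fintype.card_fin]
        have : N ^ q = N * N ^ (q - 1) := by
          rw [← pow_succ']
          congr 1
          omega
        rw [this]
      · intro x hx
        obtain ⟨i, hi⟩ := mem_iUnion.1 (hCc hx)
        obtain ⟨T, hT, hxT⟩ := mem_iUnion₂.1 (hD2 i ⟨hx, hi⟩)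
        refine mem_iUnion₂.2 ⟨T, ?_, hxT⟩
        rw [Finset.mem_biUnion]
        exact ⟨i, Finset.mem_univ _, hT⟩
      · intro T hT
        obtain ⟨i, -, hi⟩ := Finset.mem_biUnion.1 hT
        exact hD3 i T hi

end tree

section cover

variable {X : Type*} [PseudoMetricSpace X] [MeasurableSpace X] [BorelSpace X]

end cover

/-- covers of sets of Hausdorff measure zero, with strict radii -/
lemma exists_cover_of_null {X : Type*} [MetricSpace X] [MeasurableSpace X] [BorelSpace X]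
    (d : ℝ) (hd : 0 < d) (s : Set X) (hs : μH[d] s = 0) (ρ : ℝ) (hρ : 0 < ρ) (ε : ℝ≥0∞)
    (hε : 0 < ε) :
    ∃ (t : ℕ → Set X) (r : ℕ → ℝ), s ⊆ ⋃ n, t n ∧ (∀ n, 0 < r n ∧ r n ≤ ρ) ∧
      (∀ n, ∀ x ∈ t n, ∀ y ∈ t n, dist x y < r n) ∧
      ∑' n, ENNReal.ofReal (r n ^ d) ≤ ε := by
  -- reduce to finite ε
  wlog hεtop : ε ≠ ∞ generalizing ε
  · obtain ⟨t, r, h1, h2, h3, h4⟩ := this 1 one_pos ENNReal.one_ne_top
    rw [not_not] at hεtop
    exact ⟨t, r, h1, h2, h3, by rw [hεtop]; exact le_top⟩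
  set c : ℝ := (2 : ℝ) ^ d with hc
  have hc0 : 0 < c := by positivity
  set ε' : ℝ := ε.toReal / c / 2 with hε'
  have hεr : 0 < ε.toReal := ENNReal.toReal_pos hε.ne' hεtop
  have hε'0 : 0 < ε' := by positivity
  rw [Measure.hausdorffMeasure_apply] at hs
  have h1 : (⨅ (t : ℕ → Set X) (_ : s ⊆ ⋃ n, t n) (_ : ∀ n, ediam (t n) ≤ ENNReal.ofReal (ρ / 2)),
      ∑' n, ⨆ _ : (t n).Nonempty, ediam (t n) ^ d) < ENNReal.ofReal ε' := by
    refine lt_of_le_of_lt ?_ (ENNReal.ofReal_pos.2 hε'0)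
    rw [← hs]
    exact le_iSup₂ (f := fun (r : ℝ≥0∞) (_ : 0 < r) =>
      ⨅ (t : ℕ → Set X) (_ : s ⊆ ⋃ n, t n) (_ : ∀ n, ediam (t n) ≤ r),
          ∑' n, ⨆ _ : (t n).Nonempty, ediam (t n) ^ d) (ENNReal.ofReal (ρ / 2))
        (ENNReal.ofReal_pos.2 (by positivity))
  simp only [iInf_lt_iff] at h1
  obtain ⟨t, hst, htd, hsum⟩ := h1
  have hdiam_ne : ∀ n, ediam (t n) ≠ ∞ := fun n => ne_top_of_le_ne_top ENNReal.ofReal_ne_top (htd n)
  set D : ℕ → ℝ := fun n => (ediam (t n)).toReal with hD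
  have hD0 : ∀ n, 0 ≤ D n := fun n => ENNReal.toReal_nonneg
  have hDρ : ∀ n, D n ≤ ρ / 2 := fun n => by
    have := ENNReal.toReal_mono ENNReal.ofReal_ne_top (htd n)
    rwa [ENNReal.toReal_ofReal (by positivity)] at this
  set e : ℕ → ℝ := fun n => min (ρ / 2) ((ε' * (1 / 2 : ℝ) ^ (n + 1)) ^ (1 / d)) with he
  have he0 : ∀ n, 0 < e n := fun n => lt_min (by positivity) (by positivity)
  have hed : ∀ n, e n ^ d ≤ ε' * (1 / 2 : ℝ) ^ (n + 1) := by
    intro n
    have h2 : e n ≤ (ε' * (1 / 2 : ℝ) ^ (n + 1)) ^ (1 / d) := min_le_right _ _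
    calc e n ^ d ≤ ((ε' * (1 / 2 : ℝ) ^ (n + 1)) ^ (1 / d)) ^ d :=
          Real.rpow_le_rpow (he0 n).le h2 hd.le
      _ = ε' * (1 / 2 : ℝ) ^ (n + 1) := by
          rw [← Real.rpow_mul (by positivity), one_div_mul_cancel hd.ne', Real.rpow_one]
  have hterm : ∀ n, ENNReal.ofReal (D n ^ d) ≤ ⨆ _ : (t n).Nonempty, ediam (t n) ^ d := by
    intro n
    rw [← ENNReal.ofReal_rpow_of_nonneg (hD0 n) hd.le, hD, ENNReal.ofReal_toReal (hdiam_ne n)]
    rcases (t n).eq_empty_or_nonempty with h | h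
    · rw [h]
      simp [hd]
    · exact le_iSup (f := fun _ : (t n).Nonempty => ediam (t n) ^ d) h
  refine ⟨t, fun n => D n + e n, hst, ?_, ?_, ?_⟩
  · intro n
    refine ⟨by linarith [hD0 n, he0 n], ?_⟩
    have : e n ≤ ρ / 2 := min_le_left _ _
    linarith [hDρ n]
  · intro n x hx y hy
    have h2 : dist x y ≤ D n := by
      have h3 : edist x y ≤ ediam (t n) := edist_le_ediam_of_mem hx hy
      have h4 := ENNReal.toReal_mono (hdiam_ne n) h3
      rwa [edist_dist, ENNReal.toReal_ofReal dist_nonneg] at h4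
    linarith [he0 n]
  · have h2 : ∀ n, ENNReal.ofReal ((D n + e n) ^ d) ≤
        ENNReal.ofReal c * (ENNReal.ofReal (D n ^ d) + ENNReal.ofReal (e n ^ d)) := by
      intro n
      have hDd : 0 ≤ D n ^ d := Real.rpow_nonneg (hD0 n) _
      have hedd : 0 ≤ e n ^ d := Real.rpow_nonneg (he0 n).le _
      rw [← ENNReal.ofReal_add hDd hedd, ← ENNReal.ofReal_mul hc0.le]
      apply ENNReal.ofReal_le_ofReal
      have h3 : D n + e n ≤ 2 * max (D n) (e n) := by
        have h5 := le_max_left (D n) (e n)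
        have h6 := le_max_right (D n) (e n)
        linarith
      calc (D n + e n) ^ d ≤ (2 * max (D n) (e n)) ^ d :=
            Real.rpow_le_rpow (by linarith [hD0 n, he0 n]) h3 hd.le
        _ = c * (max (D n) (e n)) ^ d := by
            rw [Real.mul_rpow (by norm_num) (le_max_of_le_left (hD0 n))]
        _ ≤ c * (D n ^ d + e n ^ d) := by
            gcongr
            rcases le_total (D n) (e n) with h4 | h4
            · rw [max_eq_right h4]; linarith
            · rw [max_eq_left h4]; linarith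
    have h3 : ∑' n, ENNReal.ofReal (e n ^ d) ≤ ENNReal.ofReal ε' := by
      have h4 : ∀ n, ENNReal.ofReal (e n ^ d) ≤
          ENNReal.ofReal ε' * (2⁻¹ : ℝ≥0∞) ^ (n + 1) := by
        intro n
        refine (ENNReal.ofReal_le_ofReal (hed n)).trans ?_
        rw [ENNReal.ofReal_mul hε'0.le, ENNReal.ofReal_pow (by norm_num)]
        gcongr
        rw [one_div, ENNReal.ofReal_inv_of_pos (by norm_num)]
        simp
      refine (ENNReal.tsum_le_tsum h4).trans ?_
      rw [ENNReal.tsum_mul_left, ENNReal.tsum_geometric_add_one]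
      have : (2⁻¹ : ℝ≥0∞) * (1 - 2⁻¹)⁻¹ = 1 := by
        rw [ENNReal.one_sub_inv_two, inv_inv]
        exact ENNReal.inv_mul_cancel (by norm_num) (by norm_num)
      rw [this, mul_one]
    have h4 : ∑' n, ENNReal.ofReal (D n ^ d) ≤ ENNReal.ofReal ε' :=
      (ENNReal.tsum_le_tsum hterm).trans hsum.le
    calc ∑' n, ENNReal.ofReal ((D n + e n) ^ d)
        ≤ ∑' n, ENNReal.ofReal c * (ENNReal.ofReal (D n ^ d) + ENNReal.ofReal (e n ^ d)) :=
          ENNReal.tsum_le_tsum h2
      _ = ENNReal.ofReal c * (∑' n, ENNReal.ofReal (D n ^ d) + ∑' n, ENNReal.ofReal (e n ^ d)) := by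
          rw [ENNReal.tsum_mul_left, ENNReal.tsum_add]
      _ ≤ ENNReal.ofReal c * (ENNReal.ofReal ε' + ENNReal.ofReal ε') := by gcongr
      _ = ENNReal.ofReal (c * (ε' + ε')) := by
          rw [← ENNReal.ofReal_add hε'0.le hε'0.le, ← ENNReal.ofReal_mul hc0.le]
      _ = ε := by
          have : c * (ε' + ε') = ε.toReal := by
            rw [hε']
            field_simp
            ring
          rw [this, ENNReal.ofReal_toReal hεtop]

end RPF
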