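import Mathlib
import Pool.Agent.RPF.Tree

/-!
# Transfer of null sets from the image to the set
-/

namespace RPF

open Set MeasureTheory Filter Metric
open scoped Topology ENNReal NNReal

variable {E F : Type*} [NormedAddCommGroup E] [NormedSpace ℝ E]
  [NormedAddCommGroup F] [NormedSpace ℝ F]

open Classical in
/-- number of bad scales below `K` -/
noncomputable def badCount (L : E →ₗ[ℝ] F) (B : Set E) (lam : ℝ) (x : E) (K : ℕ) : ℕ :=
  ((Finset.range K).filter (fun k => ¬ Good L B lam x k)).card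

variable [MeasurableSpace E] [BorelSpace E] [MeasurableSpace F] [BorelSpace F]

lemma null_small {N : ℕ} (hN1 : 1 ≤ N) (hN : Halving E N) (L : E →ₗ[ℝ] F) (B : Set E)
    (lam : ℝ) (hlam : 0 < lam) (hlam1 : lam < 1) (δ : ℝ) (hδ : 0 ≤ δ) (k1 : ℕ) (G : Set E)
    (hGB : G ⊆ B) (hpairs : ∀ x ∈ G, ∀ y ∈ G, ‖x - y‖ < (2 : ℝ)⁻¹ ^ k1)
    (hbad : ∀ x ∈ G, ∀ K : ℕ, k1 ≤ K → (badCount L B lam x K : ℝ) ≤ δ * K)
    (d d' : ℝ) (hd : 0 < d) (hd' : 0 < d')
    (hdd : (N : ℝ) ^ δ * (2 : ℝ)⁻¹ ^ d' ≤ lam ^ d) (hz : μH[d] (L '' G) = 0) :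
    μH[d'] G = 0 := by
  classical
  have hlamd : 0 < lam ^ d := Real.rpow_pos_of_pos hlam d
  have hcov : ∀ j : ℕ, ∃ (t : ℕ → Set F) (r : ℕ → ℝ), L '' G ⊆ ⋃ n, t n ∧
      (∀ n, 0 < r n ∧ r n ≤ lam ^ (max j k1 + 1)) ∧
      (∀ n, ∀ x ∈ t n, ∀ y ∈ t n, dist x y < r n) ∧
      ∑' n, ENNReal.ofReal (r n ^ d) ≤ ENNReal.ofReal (lam ^ d) * (2⁻¹ : ℝ≥0∞) ^ j := by
    intro j
    refine exists_cover_of_null d hd _ hz _ (by positivity) _ ?_
    have h1 : ENNReal.ofReal (lam ^ d) ≠ 0 := by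
      rw [Ne, ENNReal.ofReal_eq_zero, not_le]
      exact hlamd
    have h2 : (2⁻¹ : ℝ≥0∞) ^ j ≠ 0 := pow_ne_zero _ (by simp)
    exact pos_iff_ne_zero.2 (mul_ne_zero h1 h2)
  choose t r hLG hr htr hsum using hcov
  have hKex : ∀ j n, ∃ K : ℕ, lam ^ (K + 1) < r j n ∧ r j n ≤ lam ^ K := by
    intro j n
    refine exists_nat_pow_near_of_lt_one (hr j n).1 ?_ hlam hlam1
    exact (hr j n).2.trans (pow_le_one₀ hlam.le hlam1.le)
  choose K hK1 hK2 using hKex
  have hKge : ∀ j n, max j k1 ≤ K j n := by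
    intro j n
    have h1 : lam ^ (K j n + 1) < lam ^ (max j k1 + 1) := (hK1 j n).trans_le (hr j n).2
    rw [pow_lt_pow_iff_right_of_lt_one₀ hlam hlam1] at h1
    omega
  have htree : ∀ j n, ∃ C : Finset (Set E), C.card ≤ N ^ ⌊δ * (K j n : ℝ)⌋₊ ∧
      (G ∩ L ⁻¹' (t j n)) ⊆ ⋃ T ∈ C, T ∧
      ∀ T ∈ C, ∀ x ∈ T, ∀ y ∈ T, ‖x - y‖ < (2 : ℝ)⁻¹ ^ (K j n) := by
    intro j n
    have hk1 : k1 ≤ K j n := (le_max_right _ _).trans (hKge j n)
    refine tree hN L B lam hlam hlam1 (K j n) (K j n - k1) k1 _ _ (by omega)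
      (inter_subset_left.trans hGB) ?_ ?_ ?_
    · intro x hx y hy
      exact hpairs x hx.1 y hy.1
    · intro x hx y hy
      have h1 := htr j n (L x) hx.2 (L y) hy.2
      rw [dist_eq_norm, ← map_sub] at h1
      exact h1.trans_le (hK2 j n)
    · intro x hx
      apply Nat.le_floor
      refine le_trans ?_ (hbad x hx.1 (K j n) hk1)
      rw [badCount]
      norm_cast
      apply Finset.card_le_card
      intro k hk
      rw [Finset.mem_filter, Finset.mem_Ico] at hk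
      rw [Finset.mem_filter, Finset.mem_range]
      exact ⟨hk.1.2, hk.2⟩
  choose C hC1 hC2 hC3 using htree
  have hed : ∀ j n, ∀ T ∈ C j n, ediam T ≤ ENNReal.ofReal ((2 : ℝ)⁻¹ ^ (K j n)) := by
    intro j n T hT
    refine ediam_le (fun x hx y hy => ?_)
    rw [edist_dist, dist_eq_norm]
    exact ENNReal.ofReal_le_ofReal (hC3 j n T hT x hx y hy).le
  have hmain := Measure.hausdorffMeasure_le_liminf_tsum (β := ℕ)
    (ι := fun j => (n : ℕ) × {T : Set E // T ∈ C j n}) d' G (l := atTop)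
    (fun j => ENNReal.ofReal ((2 : ℝ)⁻¹ ^ j)) ?_ (fun j i => i.2.1) ?_ ?_
  · have hbound : ∀ j, (∑' i : (n : ℕ) × {T : Set E // T ∈ C j n}, ediam (i.2.1) ^ d') ≤
        (2⁻¹ : ℝ≥0∞) ^ j := by
      intro j
      rw [ENNReal.tsum_sigma']
      have hinner : ∀ n, (∑' T : {T : Set E // T ∈ C j n}, ediam (T : Set E) ^ d') ≤
          ENNReal.ofReal (r j n ^ d) * ENNReal.ofReal ((lam ^ d)⁻¹) := by
        intro n
        rw [tsum_fintype]
        calc ∑ T : {T : Set E // T ∈ C j n}, ediam (T : Set E) ^ d'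
            ≤ ∑ _T : {T : Set E // T ∈ C j n}, ENNReal.ofReal (((2 : ℝ)⁻¹ ^ (K j n)) ^ d') := by
              refine Finset.sum_le_sum (fun T _ => ?_)
              rw [← ENNReal.ofReal_rpow_of_nonneg (by positivity) hd'.le]
              exact ENNReal.rpow_le_rpow (hed j n T T.2) hd'.le
          _ = ((C j n).card : ℝ≥0∞) * ENNReal.ofReal (((2 : ℝ)⁻¹ ^ (K j n)) ^ d') := by
              rw [Finset.sum_const, Finset.card_univ, Fintype.card_coe, nsmul_eq_mul]
          _ ≤ ENNReal.ofReal ((N : ℝ) ^ ⌊δ * (K j n : ℝ)⌋₊) *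
                ENNReal.ofReal (((2 : ℝ)⁻¹ ^ (K j n)) ^ d') := by
              gcongr
              rw [← ENNReal.ofReal_natCast]
              apply ENNReal.ofReal_le_ofReal
              exact_mod_cast hC1 j n
          _ ≤ ENNReal.ofReal (r j n ^ d) * ENNReal.ofReal ((lam ^ d)⁻¹) := by
              rw [← ENNReal.ofReal_mul (by positivity), ← ENNReal.ofReal_mul
                (Real.rpow_nonneg (hr j n).1.le _)]
              apply ENNReal.ofReal_le_ofReal
              have hNr : (1 : ℝ) ≤ N := by exact_mod_cast hN1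
              have h1 : ((N : ℝ) ^ ⌊δ * (K j n : ℝ)⌋₊) ≤ ((N : ℝ) ^ δ) ^ (K j n) := by
                rw [← Real.rpow_natCast, ← Real.rpow_natCast ((N : ℝ) ^ δ), ← Real.rpow_mul
                  (by positivity)]
                apply Real.rpow_le_rpow_of_exponent_le hNr
                exact Nat.floor_le (by positivity)
              have h2 : ((2 : ℝ)⁻¹ ^ (K j n)) ^ d' = ((2 : ℝ)⁻¹ ^ d') ^ (K j n) := by
                rw [← Real.rpow_natCast, ← Real.rpow_natCast, ← Real.rpow_mul (by positivity),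
                  ← Real.rpow_mul (by positivity), mul_comm]
              have h3 : (lam ^ d) ^ (K j n + 1) ≤ r j n ^ d := by
                have h4 : (lam ^ (K j n + 1)) ^ d = (lam ^ d) ^ (K j n + 1) := by
                  rw [← Real.rpow_natCast, ← Real.rpow_natCast, ← Real.rpow_mul hlam.le,
                    ← Real.rpow_mul hlam.le, mul_comm]
                rw [← h4]
                exact Real.rpow_le_rpow (by positivity) (hK1 j n).le hd.le
              rw [h2]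
              calc ((N : ℝ) ^ ⌊δ * (K j n : ℝ)⌋₊) * ((2 : ℝ)⁻¹ ^ d') ^ (K j n)
                  ≤ ((N : ℝ) ^ δ) ^ (K j n) * ((2 : ℝ)⁻¹ ^ d') ^ (K j n) := by gcongr
                _ = ((N : ℝ) ^ δ * (2 : ℝ)⁻¹ ^ d') ^ (K j n) := by rw [mul_pow]
                _ ≤ (lam ^ d) ^ (K j n) := by gcongr
                _ = (lam ^ d) ^ (K j n + 1) * (lam ^ d)⁻¹ := by
                    rw [pow_succ, mul_assoc, mul_inv_cancel₀ hlamd.ne', mul_one]
                _ ≤ r j n ^ d * (lam ^ d)⁻¹ := by gcongr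
      calc ∑' n, ∑' T : {T : Set E // T ∈ C j n}, ediam (T : Set E) ^ d'
          ≤ ∑' n, ENNReal.ofReal (r j n ^ d) * ENNReal.ofReal ((lam ^ d)⁻¹) :=
            ENNReal.tsum_le_tsum hinner
        _ = (∑' n, ENNReal.ofReal (r j n ^ d)) * ENNReal.ofReal ((lam ^ d)⁻¹) :=
            ENNReal.tsum_mul_right
        _ ≤ (ENNReal.ofReal (lam ^ d) * (2⁻¹ : ℝ≥0∞) ^ j) * ENNReal.ofReal ((lam ^ d)⁻¹) := by
            gcongr
            exact hsum j
        _ = (2⁻¹ : ℝ≥0∞) ^ j := by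
            rw [mul_right_comm, ← ENNReal.ofReal_mul hlamd.le, mul_inv_cancel₀ hlamd.ne',
              ENNReal.ofReal_one, one_mul]
    have hlim : Tendsto (fun j : ℕ => (2⁻¹ : ℝ≥0∞) ^ j) atTop (𝓝 0) :=
      ENNReal.tendsto_pow_atTop_nhds_zero_of_lt_one (by simp)
    have h5 : liminf (fun j => ∑' i : (n : ℕ) × {T : Set E // T ∈ C j n}, ediam (i.2.1) ^ d')
        atTop ≤ liminf (fun j : ℕ => (2⁻¹ : ℝ≥0∞) ^ j) atTop :=
      liminf_le_liminf (Eventually.of_forall hbound)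
    rw [hlim.liminf_eq] at h5
    exact le_antisymm (hmain.trans h5) (by simp)
  · have : Tendsto (fun j : ℕ => (2 : ℝ)⁻¹ ^ j) atTop (𝓝 0) :=
      tendsto_pow_atTop_nhds_zero_of_lt_one (by norm_num) (by norm_num)
    have h6 := ENNReal.tendsto_ofReal this
    simpa using h6
  · refine Eventually.of_forall (fun j i => ?_)
    refine (hed j i.1 i.2.1 i.2.2).trans (ENNReal.ofReal_le_ofReal ?_)
    exact pow_le_pow_of_le_one (by norm_num) (by norm_num) ((le_max_left _ _).trans (hKge j i.1))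
  · refine Eventually.of_forall (fun j x hx => ?_)
    obtain ⟨n, hn⟩ := mem_iUnion.1 (hLG j ⟨x, hx, rfl⟩)
    obtain ⟨T, hT, hxT⟩ := mem_iUnion₂.1 (hC2 j n ⟨hx, hn⟩)
    exact mem_iUnion.2 ⟨⟨n, T, hT⟩, hxT⟩

/-- **Null transfer.** -/
theorem null_transfer {N : ℕ} (hN1 : 1 ≤ N) (hN : Halving E N) [SecondCountableTopology E]
    (L : E →ₗ[ℝ] F) (B : Set E)
    (lam : ℝ) (hlam : 0 < lam) (hlam1 : lam < 1) (δ : ℝ) (hδ : 0 ≤ δ) (k1 : ℕ) (G : Set E)
    (hGB : G ⊆ B)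
    (hbad : ∀ x ∈ G, ∀ K : ℕ, k1 ≤ K → (badCount L B lam x K : ℝ) ≤ δ * K)
    (d d' : ℝ) (hd : 0 < d) (hd' : 0 < d')
    (hdd : (N : ℝ) ^ δ * (2 : ℝ)⁻¹ ^ d' ≤ lam ^ d) (hz : μH[d] (L '' B) = 0) :
    μH[d'] G = 0 := by
  obtain ⟨Z, hZc, hZd⟩ := TopologicalSpace.exists_countable_dense E
  set r : ℝ := (2 : ℝ)⁻¹ ^ k1 / 2 with hr
  have hr0 : 0 < r := by positivity
  have hcov : G ⊆ ⋃ z ∈ Z, (G ∩ ball z r) := by
    intro x hx
    obtain ⟨z, hz, hzx⟩ := hZd.exists_dist_lt x hr0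
    simp only [mem_iUnion]
    exact ⟨z, hz, hx, hzx⟩
  refine measure_mono_null hcov ((measure_biUnion_null_iff hZc).2 (fun z _ => ?_))
  refine null_small hN1 hN L B lam hlam hlam1 δ hδ k1 (G ∩ ball z r)
    (inter_subset_left.trans hGB) ?_ (fun x hx => hbad x hx.1) d d' hd hd' hdd ?_
  · intro x hx y hy
    have h1 : dist x z < r := hx.2
    have h2 : dist y z < r := hy.2
    have h3 : dist x y ≤ dist x z + dist y z := dist_triangle_right _ _ _
    rw [← dist_eq_norm]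
    have : r + r = (2 : ℝ)⁻¹ ^ k1 := by rw [hr]; ring
    linarith
  · exact measure_mono_null (image_mono (inter_subset_left.trans hGB)) hz

end RPF
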