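import Mathlib

/-!
# Uniform sublevel set estimates for finite dimensional families of analytic functions
-/

namespace RPF

open Set MeasureTheory Filter Metric
open scoped Topology ENNReal NNReal

/-- van der Corput's sublevel set estimate. -/
lemma sublevel_aux (k : ℕ) : ∀ (F : ℕ → ℝ → ℝ) (J : Set ℝ) (c τ : ℝ), Convex ℝ J → 0 < c → 0 < τ →
    (∀ i < k, ∀ t ∈ J, HasDerivAt (F i) (F (i + 1) t) t) → (∀ t ∈ J, c ≤ F k t) →
    volume {t ∈ J | |F 0 t| < c * τ ^ k} ≤ ENNReal.ofReal ((2 ^ (k + 1) - 2) * τ) := by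
  induction k with
  | zero =>
    intro F J c τ _ _ _ _ h2
    have : {t ∈ J | |F 0 t| < c * τ ^ 0} = ∅ := by
      ext t
      simp only [pow_zero, mul_one, mem_ofPred_eq, mem_empty_iff_false, iff_false, not_and, not_lt]
      intro ht
      exact (h2 t ht).trans (le_abs_self _)
    rw [this]
    simp
  | succ k ih =>
    intro F J c τ hJ hc hτ hd h2
    have hmv : ∀ x ∈ J, ∀ y ∈ J, x ≤ y → c * (y - x) ≤ F k y - F k x := by
      apply hJ.mul_sub_le_image_sub_of_le_deriv
      · intro t ht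
        exact (hd k (Nat.lt_succ_self k) t ht).continuousAt.continuousWithinAt
      · intro t ht
        exact (hd k (Nat.lt_succ_self k) t (interior_subset ht)).differentiableAt.differentiableWithinAt
      · intro t ht
        rw [(hd k (Nat.lt_succ_self k) t (interior_subset ht)).deriv]
        exact h2 t (interior_subset ht)
    set J0 : Set ℝ := {t ∈ J | |F k t| < c * τ} with hJ0
    set Jp : Set ℝ := {t ∈ J | c * τ ≤ F k t} with hJp
    set Jm : Set ℝ := {t ∈ J | c * τ ≤ -F k t} with hJm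
    have hJ0v : volume J0 ≤ ENNReal.ofReal (2 * τ) := by
      refine (Real.volume_le_diam J0).trans ?_
      have key : ∀ x ∈ J0, ∀ y ∈ J0, x ≤ y → y - x ≤ 2 * τ := by
        intro x hx y hy hxy
        have h3 := hmv x hx.1 y hy.1 hxy
        have h4 := (abs_lt.1 hx.2).1
        have h5 := (abs_lt.1 hy.2).2
        have h6 : c * (y - x) ≤ c * (2 * τ) := by nlinarith
        exact le_of_mul_le_mul_left h6 hc
      refine ediam_le (fun x hx y hy => ?_)
      rw [edist_dist, Real.dist_eq]
      apply ENNReal.ofReal_le_ofReal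
      rcases le_total x y with hxy | hxy
      · rw [abs_sub_comm, abs_of_nonneg (by linarith)]
        exact key x hx y hy hxy
      · rw [abs_of_nonneg (by linarith)]
        exact key y hy x hx hxy
    have hJpc : Convex ℝ Jp := by
      rw [convex_iff_ordConnected, ordConnected_iff]
      intro x hx y hy _ z hz
      have hzJ : z ∈ J := (convex_iff_ordConnected.1 hJ).out hx.1 hy.1 hz
      refine ⟨hzJ, ?_⟩
      have h3 := hmv x hx.1 z hzJ hz.1
      have h4 : 0 ≤ c * (z - x) := mul_nonneg hc.le (by linarith [hz.1])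
      linarith [hx.2]
    have hJmc : Convex ℝ Jm := by
      rw [convex_iff_ordConnected, ordConnected_iff]
      intro x hx y hy _ z hz
      have hzJ : z ∈ J := (convex_iff_ordConnected.1 hJ).out hx.1 hy.1 hz
      refine ⟨hzJ, ?_⟩
      have h3 := hmv z hzJ y hy.1 hz.2
      have h4 : 0 ≤ c * (y - z) := mul_nonneg hc.le (by linarith [hz.2])
      linarith [hy.2]
    have h5 := ih F Jp (c * τ) τ hJpc (by positivity) hτ
      (fun i hi t ht => hd i (by omega) t ht.1) (fun t ht => ht.2)
    have h6 := ih (fun i t => -F i t) Jm (c * τ) τ hJmc (by positivity) hτ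
      (fun i hi t ht => (hd i (by omega) t ht.1).neg) (fun t ht => ht.2)
    have hsub : {t ∈ J | |F 0 t| < c * τ ^ (k + 1)} ⊆
        J0 ∪ ({t ∈ Jp | |F 0 t| < (c * τ) * τ ^ k} ∪ {t ∈ Jm | |-F 0 t| < (c * τ) * τ ^ k}) := by
      rintro t ⟨htJ, ht⟩
      have h7 : c * τ ^ (k + 1) = (c * τ) * τ ^ k := by ring
      rw [h7] at ht
      by_cases h8 : |F k t| < c * τ
      · exact Or.inl ⟨htJ, h8⟩
      · right
        rw [not_lt, le_abs] at h8
        rcases h8 with h8 | h8
        · exact Or.inl ⟨⟨htJ, h8⟩, ht⟩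
        · exact Or.inr ⟨⟨htJ, h8⟩, by rwa [abs_neg]⟩
    have h2k : (0 : ℝ) ≤ 2 ^ (k + 1) - 2 := by
      have : (2 : ℝ) ^ 1 ≤ 2 ^ (k + 1) := pow_le_pow_right₀ (by norm_num) (by omega)
      linarith
    calc volume {t ∈ J | |F 0 t| < c * τ ^ (k + 1)}
        ≤ volume J0 + (volume {t ∈ Jp | |F 0 t| < (c * τ) * τ ^ k} +
            volume {t ∈ Jm | |-F 0 t| < (c * τ) * τ ^ k}) := by
          refine (measure_mono hsub).trans ((measure_union_le _ _).trans ?_)
          gcongr
          exact measure_union_le _ _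
      _ ≤ ENNReal.ofReal (2 * τ) + (ENNReal.ofReal ((2 ^ (k + 1) - 2) * τ) +
            ENNReal.ofReal ((2 ^ (k + 1) - 2) * τ)) := by gcongr
      _ = ENNReal.ofReal ((2 ^ (k + 1 + 1) - 2) * τ) := by
          rw [← ENNReal.ofReal_add (by positivity) (by positivity),
            ← ENNReal.ofReal_add (by positivity) (by positivity)]
          congr 1
          ring

variable {X : Type*} [TopologicalSpace X]

/-- A finite dimensional family of analytic functions, none of which vanishes identically near any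
point of `[0,1]`, has uniformly small sublevel sets. -/
theorem sublevel_uniform [CompactSpace X] {ι : Type*} [Fintype ι] (c : ι → X → ℝ) (g : ι → ℝ → ℝ)
    (hc : ∀ a, Continuous (c a)) (hg : ∀ a, AnalyticOn ℝ (g a) (Icc (0 : ℝ) 1))
    (hne : ∀ x, ∀ t ∈ Icc (0 : ℝ) 1, ¬ ∀ᶠ s in 𝓝[Icc (0 : ℝ) 1] t, ∑ a, c a x * g a s = 0) :
    ∃ (K : ℕ) (C c0 : ℝ), 0 ≤ C ∧ 0 < c0 ∧ ∀ x, ∀ τ : ℝ, 0 < τ → τ ≤ 1 →
      volume {t ∈ Icc (0 : ℝ) 1 | |∑ a, c a x * g a t| < c0 * τ ^ K} ≤ ENNReal.ofReal (C * τ) := by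
  set f : X → ℝ → ℝ := fun x t => ∑ a, c a x * g a t with hf
  set p : Set (X × ℝ) → Prop := fun S => ∃ (K : ℕ) (C c0 : ℝ), 0 ≤ C ∧ 0 < c0 ∧
    ∀ x, ∀ τ : ℝ, 0 < τ → τ ≤ 1 →
      volume {t | (x, t) ∈ S ∧ |f x t| < c0 * τ ^ K} ≤ ENNReal.ofReal (C * τ) with hp
  have hcomp : IsCompact ((univ : Set X) ×ˢ Icc (0 : ℝ) 1) := isCompact_univ.prod isCompact_Icc
  have hpS : p ((univ : Set X) ×ˢ Icc (0 : ℝ) 1) := by
    refine hcomp.induction_on ?_ ?_ ?_ ?_
    · exact ⟨0, 0, 1, le_rfl, one_pos, fun x τ _ _ => by simp⟩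
    · rintro S T hST ⟨K, C, c0, hC, hc0, h⟩
      refine ⟨K, C, c0, hC, hc0, fun x τ h1 h2 => le_trans (measure_mono ?_) (h x τ h1 h2)⟩
      rintro t ⟨ht1, ht2⟩
      exact ⟨hST ht1, ht2⟩
    · rintro S T ⟨K, C, c0, hC, hc0, h⟩ ⟨K', C', c0', hC', hc0', h'⟩
      refine ⟨max K K', C + C', min c0 c0', by positivity, lt_min hc0 hc0', fun x τ h1 h2 => ?_⟩
      have hsub : {t | (x, t) ∈ S ∪ T ∧ |f x t| < min c0 c0' * τ ^ max K K'} ⊆
          {t | (x, t) ∈ S ∧ |f x t| < c0 * τ ^ K} ∪ {t | (x, t) ∈ T ∧ |f x t| < c0' * τ ^ K'} := by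
        rintro t ⟨ht1, ht2⟩
        rcases ht1 with ht1 | ht1
        · left
          refine ⟨ht1, ht2.trans_le ?_⟩
          have : τ ^ max K K' ≤ τ ^ K := pow_le_pow_of_le_one h1.le h2 (le_max_left _ _)
          exact mul_le_mul (min_le_left _ _) this (by positivity) hc0.le
        · right
          refine ⟨ht1, ht2.trans_le ?_⟩
          have : τ ^ max K K' ≤ τ ^ K' := pow_le_pow_of_le_one h1.le h2 (le_max_right _ _)
          exact mul_le_mul (min_le_right _ _) this (by positivity) hc0'.le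
      refine (measure_mono hsub).trans ((measure_union_le _ _).trans ?_)
      rw [add_mul, ENNReal.ofReal_add (by positivity) (by positivity)]
      exact add_le_add (h x τ h1 h2) (h' x τ h1 h2)
    · rintro ⟨x0, t0⟩ ⟨-, ht0⟩
      -- local analytic extensions
      have hext : ∀ a, ∃ g' : ℝ → ℝ, g a =ᶠ[𝓝[Icc (0 : ℝ) 1] t0] g' ∧ AnalyticAt ℝ g' t0 := by
        intro a
        have h1 := analyticWithinAt_iff_exists_analyticAt.1 (hg a t0 ht0)
        rwa [insert_eq_of_mem ht0] at h1
      choose g' hgg' hg' using hext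
      have hgg : ∀ᶠ t in 𝓝[Icc (0 : ℝ) 1] t0, ∀ a, g a t = g' a t := by
        rw [eventually_all]
        exact hgg'
      -- some derivative is nonzero
      set f' : X → ℝ → ℝ := fun x t => ∑ a, c a x * g' a t with hf'
      have hfa : AnalyticAt ℝ (f' x0) t0 := by
        have : f' x0 = fun t => ∑ a, c a x0 * g' a t := rfl
        rw [this]
        refine Finset.analyticAt_fun_sum _ (fun a _ => ?_)
        exact analyticAt_const.mul (hg' a)
      have hord : analyticOrderAt (f' x0) t0 ≠ ⊤ := by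
        rw [Ne, analyticOrderAt_eq_top]
        intro h0
        apply hne x0 t0 ht0
        filter_upwards [hgg, mem_nhdsWithin_of_mem_nhds h0] with t h1 h2
        rw [← show f' x0 t = 0 from h2]
        simp only [hf', h1]
      obtain ⟨k, hk⟩ := ENat.ne_top_iff_exists.1 hord
      have hk2 := ((analyticOrderAt_eq_nat_iff_iteratedDeriv_eq_zero hfa).1 hk.symm).2
      -- the functions F i x t
      set F : ℕ → X → ℝ → ℝ := fun i x t => ∑ a, c a x * iteratedDeriv i (g' a) t with hF
      have han : ∀ᶠ t in 𝓝 t0, ∀ a, AnalyticAt ℝ (g' a) t := by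
        rw [eventually_all]
        intro a
        exact (hg' a).eventually_analyticAt
      have hanit : ∀ (i : ℕ) (a : ι) (t : ℝ), AnalyticAt ℝ (g' a) t →
          AnalyticAt ℝ (iteratedDeriv i (g' a)) t := by
        intro i a t h
        induction i with
        | zero => simpa using h
        | succ i ih =>
          rw [iteratedDeriv_succ]
          exact ih.deriv
      have hFk : F k x0 t0 ≠ 0 := by
        have : iteratedDeriv k (f' x0) t0 = F k x0 t0 := by
          have h1 : f' x0 = fun t => ∑ a, c a x0 * g' a t := rfl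
          rw [h1, iteratedDeriv_fun_sum]
          · refine Finset.sum_congr rfl (fun a _ => ?_)
            rw [iteratedDeriv_const_mul_field]
          · intro a _
            exact (analyticAt_const.mul (hg' a)).contDiffAt
        rwa [← this]
      have hcont : ContinuousAt (fun q : X × ℝ => F k q.1 q.2) (x0, t0) := by
        simp only [hF]
        refine tendsto_finsetSum _ (fun a _ => ?_)
        refine Tendsto.mul ?_ ?_
        · exact ((hc a).continuousAt.comp (x := (x0, t0)) continuousAt_fst)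
        · exact ((hanit k a t0 (hg' a)).continuousAt.comp (x := (x0, t0)) continuousAt_snd)
      -- sign
      obtain ⟨σ, hσ, hσF⟩ : ∃ σ : ℝ, |σ| = 1 ∧ 0 < σ * F k x0 t0 := by
        rcases lt_or_gt_of_ne hFk with h | h
        · exact ⟨-1, by simp, by linarith⟩
        · exact ⟨1, by simp, by linarith⟩
      set c0 : ℝ := σ * F k x0 t0 / 2 with hc0
      have hc0pos : 0 < c0 := by positivity
      have hev : ∀ᶠ q : X × ℝ in 𝓝 (x0, t0), c0 < σ * F k q.1 q.2 := by
        have h1 : Tendsto (fun q : X × ℝ => σ * F k q.1 q.2) (𝓝 (x0, t0)) (𝓝 (σ * F k x0 t0)) :=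
          hcont.const_mul σ
        exact h1.eventually_const_lt (by rw [hc0]; linarith)
      have hev2 : ∀ᶠ q : X × ℝ in 𝓝 (x0, t0), ∀ a, AnalyticAt ℝ (g' a) q.2 :=
        (continuous_snd.tendsto (x0, t0)).eventually han
      have hev3 : ∀ᶠ q : X × ℝ in 𝓝 (x0, t0), q.2 ∈ Icc (0 : ℝ) 1 → ∀ a, g a q.2 = g' a q.2 :=
        (continuous_snd.tendsto (x0, t0)).eventually (eventually_nhdsWithin_iff.1 hgg)
      obtain ⟨U, hU, V, hV, hUV⟩ := mem_nhds_prod_iff.1 (hev.and (hev2.and hev3))
      obtain ⟨δ, hδ, hball⟩ := Metric.mem_nhds_iff.1 hV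
      refine ⟨(U ×ˢ ball t0 δ) ∩ ((univ : Set X) ×ˢ Icc (0 : ℝ) 1),
        inter_mem (mem_nhdsWithin_of_mem_nhds (prod_mem_nhds hU (ball_mem_nhds _ hδ)))
          self_mem_nhdsWithin,
        k, 2 ^ (k + 1) - 2, c0, ?_, hc0pos, ?_⟩
      · have : (2 : ℝ) ^ 1 ≤ 2 ^ (k + 1) := pow_le_pow_right₀ (by norm_num) (by omega)
        linarith
      · intro x τ hτ _
        by_cases hx : x ∈ U
        · have h1 := sublevel_aux k (fun i t => σ * F i x t) (ball t0 δ) c0 τ (convex_ball _ _)
            hc0pos hτ ?_ ?_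
          · refine le_trans (measure_mono ?_) h1
            rintro t ⟨⟨ht1, ht3⟩, ht2⟩
            refine ⟨ht1.2, ?_⟩
            have h4 := (hUV (Set.mk_mem_prod hx (hball ht1.2))).2.2 ht3.2
            have : F 0 x t = f x t := by
              simp only [hF, hf, iteratedDeriv_zero]
              exact Finset.sum_congr rfl (fun a _ => by rw [h4 a])
            simp only [this, abs_mul, hσ, one_mul]
            exact ht2
          · intro i _ t ht
            have hA : ∀ a, AnalyticAt ℝ (g' a) t := (hUV (Set.mk_mem_prod hx (hball ht))).2.1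
            apply HasDerivAt.const_mul
            simp only [hF]
            refine HasDerivAt.fun_sum (fun a _ => ?_)
            apply HasDerivAt.const_mul
            rw [iteratedDeriv_succ]
            exact (hanit i a t (hA a)).differentiableAt.hasDerivAt
          · intro t ht
            exact (hUV (Set.mk_mem_prod hx (hball ht))).1.le
        · have : {t | (x, t) ∈ (U ×ˢ ball t0 δ) ∩ ((univ : Set X) ×ˢ Icc (0 : ℝ) 1) ∧
              |f x t| < c0 * τ ^ k} = ∅ := by
            ext t
            simp [hx]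
          rw [this]
          simp
  obtain ⟨K, C, c0, hC, hc0, h⟩ := hpS
  refine ⟨K, C, c0, hC, hc0, fun x τ h1 h2 => le_trans (measure_mono ?_) (h x τ h1 h2)⟩
  rintro t ⟨ht1, ht2⟩
  exact ⟨⟨mem_univ _, ht1⟩, ht2⟩

end RPF
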