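import Mathlib
import Pool.Agent.RPF.Sublevel
import Pool.Agent.RPF.Defs

/-!
# Degenerate times of an analytic family of linear maps, uniformly over subspaces
-/

namespace RPF

open Set MeasureTheory Filter Metric Module
open scoped Topology ENNReal NNReal

variable {n m : ℕ}

/-- matrix of `L` on the frame `X` -/
def frameMat (L : EuclideanSpace ℝ (Fin n) →ₗ[ℝ] EuclideanSpace ℝ (Fin m))
    (X : Fin m → EuclideanSpace ℝ (Fin n)) : Matrix (Fin m) (Fin m) ℝ := fun a b => L (X b) a

lemma frameMat_mulVec (L : EuclideanSpace ℝ (Fin n) →ₗ[ℝ] EuclideanSpace ℝ (Fin m))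
    (X : Fin m → EuclideanSpace ℝ (Fin n)) (u : Fin m → ℝ) (a : Fin m) :
    (frameMat L X).mulVec u a = L (∑ b, u b • X b) a := by
  simp only [Matrix.mulVec, dotProduct, frameMat, map_sum, map_smul]
  rw [WithLp.ofLp_sum, Finset.sum_apply]
  refine Finset.sum_congr rfl (fun b _ => ?_)
  simp [mul_comm]

/-- lower bound of `L` on the span of an orthonormal frame by the determinant -/
lemma det_le (L : EuclideanSpace ℝ (Fin n) →ₗ[ℝ] EuclideanSpace ℝ (Fin m))
    (X : Fin m → EuclideanSpace ℝ (Fin n)) (hX : Orthonormal ℝ X) (A : ℝ)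
    (hA : ∀ i j, |(frameMat L X).adjugate i j| ≤ A) (v : EuclideanSpace ℝ (Fin n))
    (hv : v ∈ Submodule.span ℝ (range X)) :
    |(frameMat L X).det| * ‖v‖ ≤ (m * (m * A)) * ‖L v‖ := by
  classical
  obtain ⟨u, hu⟩ := (Submodule.mem_span_range_iff_exists_fun ℝ).1 hv
  have hmul : (frameMat L X).mulVec u = fun a => L v a := by
    ext a
    rw [frameMat_mulVec, hu]
  have hadj : ∀ i, (frameMat L X).det * u i = ∑ a, (frameMat L X).adjugate i a * L v a := by
    intro i
    have h1 : (frameMat L X).adjugate.mulVec ((frameMat L X).mulVec u) =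
        (frameMat L X).det • u := by
      rw [Matrix.mulVec_mulVec, Matrix.adjugate_mul, Matrix.smul_mulVec, Matrix.one_mulVec]
    have h2 := congrFun h1 i
    rw [hmul] at h2
    simpa [Matrix.mulVec, dotProduct] using h2.symm
  have hA0 : ∀ i : Fin m, 0 ≤ A := fun i => (abs_nonneg _).trans (hA i i)
  have h3 : ∀ i, |(frameMat L X).det| * |u i| ≤ m * A * ‖L v‖ := by
    intro i
    rw [← abs_mul, hadj i]
    calc |∑ a, (frameMat L X).adjugate i a * L v a|
        ≤ ∑ a, |(frameMat L X).adjugate i a * L v a| := Finset.abs_sum_le_sum_abs _ _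
      _ ≤ ∑ _a : Fin m, A * ‖L v‖ := by
          refine Finset.sum_le_sum (fun a _ => ?_)
          rw [abs_mul]
          refine mul_le_mul (hA i a) ?_ (abs_nonneg _) (hA0 i)
          have := PiLp.norm_apply_le (L v) a
          simpa using this
      _ = m * A * ‖L v‖ := by simp [mul_assoc]
  have h4 : ‖v‖ ≤ ∑ i, |u i| := by
    rw [← hu]
    refine (norm_sum_le _ _).trans (Finset.sum_le_sum (fun i _ => ?_))
    rw [norm_smul, hX.1 i, mul_one, Real.norm_eq_abs]
  calc |(frameMat L X).det| * ‖v‖ ≤ |(frameMat L X).det| * ∑ i, |u i| := by gcongr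
    _ = ∑ i, |(frameMat L X).det| * |u i| := by rw [Finset.mul_sum]
    _ ≤ ∑ _i : Fin m, m * A * ‖L v‖ := Finset.sum_le_sum (fun i _ => h3 i)
    _ = (m * (m * A)) * ‖L v‖ := by simp; ring

/-- the determinant of the frame matrix as a finite sum -/
lemma det_expand (L : EuclideanSpace ℝ (Fin n) →ₗ[ℝ] EuclideanSpace ℝ (Fin m))
    (X : Fin m → EuclideanSpace ℝ (Fin n)) :
    (frameMat L X).det = ∑ a : Equiv.Perm (Fin m) × (Fin m → Fin n),
      ((Equiv.Perm.sign a.1 : ℤ) : ℝ) * (∏ i, X i (a.2 i)) *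
        ∏ i, L (EuclideanSpace.single (a.2 i) 1) (a.1 i) := by
  classical
  rw [Matrix.det_apply', Fintype.sum_prod_type]
  refine Finset.sum_congr rfl (fun σ _ => ?_)
  have h1 : ∀ i, frameMat L X (σ i) i =
      ∑ j, X i j * L (EuclideanSpace.single j 1) (σ i) := by
    intro i
    have h2 : X i = ∑ j, X i j • EuclideanSpace.single j (1 : ℝ) := by
      have := (EuclideanSpace.basisFun (Fin n) ℝ).sum_repr (X i)
      simpa using this.symm
    rw [frameMat]
    conv_lhs => rw [h2]
    rw [map_sum, WithLp.ofLp_sum, Finset.sum_apply]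
    refine Finset.sum_congr rfl (fun j _ => ?_)
    simp
  simp only [h1]
  rw [Finset.prod_univ_sum, Fintype.piFinset_univ, Finset.mul_sum]
  refine Finset.sum_congr rfl (fun φ _ => ?_)
  rw [Finset.prod_mul_distrib]
  ring

/-- the compact space of orthonormal `m`-frames -/
abbrev Frames (n m : ℕ) := {X : Fin m → EuclideanSpace ℝ (Fin n) // Orthonormal ℝ X}

instance frames_compact : CompactSpace (Frames n m) := by
  have key : IsCompact {X : Fin m → EuclideanSpace ℝ (Fin n) | Orthonormal ℝ X} := by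
    apply Metric.isCompact_of_isClosed_isBounded
    · have : {X : Fin m → EuclideanSpace ℝ (Fin n) | Orthonormal ℝ X} =
          ⋂ i, ⋂ j, {X | inner ℝ (X i) (X j) = if i = j then (1 : ℝ) else 0} := by
        ext X
        simp [orthonormal_iff_ite]
      rw [this]
      refine isClosed_iInter (fun i => isClosed_iInter (fun j => ?_))
      exact isClosed_eq (by fun_prop) continuous_const
    · refine isBounded_iff_forall_norm_le.2 ⟨1, fun X hX => ?_⟩
      rw [pi_norm_le_iff_of_nonneg zero_le_one]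
      intro i
      exact (hX.1 i).le
  exact isCompact_iff_compactSpace.1 key

/-- a subspace of dimension at most `m ≤ n` lies in the span of an orthonormal `m`-frame -/
lemma exists_frame (hmn : m ≤ n) (V : Submodule ℝ (EuclideanSpace ℝ (Fin n)))
    (hV : finrank ℝ V ≤ m) :
    ∃ X : Fin m → EuclideanSpace ℝ (Fin n), Orthonormal ℝ X ∧ V ≤ Submodule.span ℝ (range X) := by
  classical
  set d := finrank ℝ V with hd
  set b := stdOrthonormalBasis ℝ V with hb
  set v : Fin n → EuclideanSpace ℝ (Fin n) := fun i =>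
    if h : (i : ℕ) < d then (b ⟨i, h⟩ : EuclideanSpace ℝ (Fin n)) else 0 with hv
  set s : Set (Fin n) := {i | (i : ℕ) < d} with hs
  have hvs : Orthonormal ℝ (s.domRestrict v) := by
    have h1 : Orthonormal ℝ (fun i : Fin d => (b i : EuclideanSpace ℝ (Fin n))) :=
      b.orthonormal.comp_linearIsometry V.subtypeₗᵢ
    have h2 : s.domRestrict v = (fun i : Fin d => (b i : EuclideanSpace ℝ (Fin n))) ∘
        (fun i : s => (⟨(i : Fin n), i.2⟩ : Fin d)) := by
      ext1 i
      have : ((i : Fin n) : ℕ) < d := i.2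
      simp [Set.domRestrict, hv, this]
    rw [h2]
    refine h1.comp _ ?_
    intro i j hij
    have : ((i : Fin n) : ℕ) = ((j : Fin n) : ℕ) := by simpa using congrArg Fin.val hij
    exact Subtype.ext (Fin.ext this)
  obtain ⟨w, hw⟩ := hvs.exists_orthonormalBasis_extension_of_card_eq (by simp)
  refine ⟨fun i => w (Fin.castLE hmn i), w.orthonormal.comp _ (Fin.castLE_injective hmn), ?_⟩
  intro x hx
  have h3 : (⟨x, hx⟩ : V) = ∑ i, b.repr ⟨x, hx⟩ i • b i := (b.sum_repr _).symm
  have h4 : x = ∑ i : Fin d, b.repr ⟨x, hx⟩ i • (b i : EuclideanSpace ℝ (Fin n)) := by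
    have := congrArg (Subtype.val) h3
    simpa using this
  rw [h4]
  refine Submodule.sum_mem _ (fun i _ => Submodule.smul_mem _ _ ?_)
  apply Submodule.subset_span
  have hid : (i : ℕ) < d := i.2
  refine ⟨⟨i, hid.trans_le hV⟩, ?_⟩
  have h5 := hw ⟨i, (hid.trans_le hV).trans_le hmn⟩ (by simpa [hs] using hid)
  simp only [Fin.castLE_mk]
  rw [h5]
  simp [hv, hid]

lemma det_ne_zero_near (P : ℝ → (EuclideanSpace ℝ (Fin n) →ₗ[ℝ] EuclideanSpace ℝ (Fin m)))
    (hP : SubspaceNondegenerate P) (X : Fin m → EuclideanSpace ℝ (Fin n)) (hX : Orthonormal ℝ X)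
    (t : ℝ) (ht : t ∈ Icc (0 : ℝ) 1) :
    ¬ ∀ᶠ s in 𝓝[Icc (0 : ℝ) 1] t, (frameMat (P s) X).det = 0 := by
  classical
  intro hev
  have hev' := hev.and self_mem_nhdsWithin
  obtain ⟨ε, hε, hball⟩ := Metric.mem_nhdsWithin_iff.1 hev'
  have hW : finrank ℝ (Submodule.span ℝ (range X)) = m := by
    rw [finrank_span_eq_card hX.linearIndependent]
    simp
  have hfin := hP (Submodule.span ℝ (range X))
  have hsub : Ioo (max 0 (t - ε)) (min 1 (t + ε)) ⊆
      {t ∈ Icc (0 : ℝ) 1 | finrank ℝ ((Submodule.span ℝ (range X)).map (P t)) ≠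
        min (finrank ℝ (Submodule.span ℝ (range X))) m} := by
    intro s hs
    have hs1 : s ∈ Icc (0 : ℝ) 1 :=
      ⟨((le_max_left _ _).trans_lt hs.1).le, (hs.2.trans_le (min_le_left _ _)).le⟩
    have hs2 : s ∈ ball t ε := by
      rw [mem_ball, Real.dist_eq, abs_lt]
      constructor
      · linarith [(le_max_right 0 (t - ε)).trans_lt hs.1]
      · linarith [hs.2.trans_le (min_le_right 1 (t + ε))]
    refine ⟨hs1, ?_⟩
    have hdet : (frameMat (P s) X).det = 0 := (hball ⟨hs2, hs1⟩).1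
    obtain ⟨u, hu0, hu⟩ := Matrix.exists_mulVec_eq_zero_iff.2 hdet
    rw [hW, min_self]
    intro hcon
    set W := Submodule.span ℝ (range X) with hWdef
    have hinj : Function.Injective ((P s).domRestrict W) := by
      rw [← LinearMap.ker_eq_bot]
      have h2 := LinearMap.finrank_range_add_finrank_ker ((P s).domRestrict W)
      rw [LinearMap.range_domRestrict, hcon, hW] at h2
      have h3 : finrank ℝ (LinearMap.ker ((P s).domRestrict W)) = 0 := by omega
      exact Submodule.finrank_eq_zero.1 h3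
    have hmem : ∑ b, u b • X b ∈ W :=
      Submodule.sum_mem _ (fun b _ => Submodule.smul_mem _ _ (Submodule.subset_span ⟨b, rfl⟩))
    have hz : P s (∑ b, u b • X b) = 0 := by
      ext a
      have := congrFun hu a
      rw [frameMat_mulVec] at this
      simpa using this
    have h4 : (⟨∑ b, u b • X b, hmem⟩ : W) = 0 := by
      apply hinj
      simpa using hz
    have h5 : ∑ b, u b • X b = 0 := congrArg Subtype.val h4
    have h6 := Fintype.linearIndependent_iff.1 hX.linearIndependent u h5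
    exact hu0 (funext h6)
  refine (Ioo_infinite ?_) (hfin.subset hsub)
  have h1 := ht.1
  have h2 := ht.2
  rw [max_lt_iff, lt_min_iff, lt_min_iff]
  refine ⟨⟨by norm_num, by linarith⟩, by linarith, by linarith⟩

lemma bounded_entries (P : ℝ → (EuclideanSpace ℝ (Fin n) →ₗ[ℝ] EuclideanSpace ℝ (Fin m)))
    (hPa : AnalyticFamily P) :
    ∃ M : ℝ, 0 ≤ M ∧ ∀ t ∈ Icc (0 : ℝ) 1, ∀ x : EuclideanSpace ℝ (Fin n), ‖P t x‖ ≤ M * ‖x‖ := by
  classical
  have h1 : ∀ j : Fin n, ∀ i : Fin m, ∃ C : ℝ, ∀ t ∈ Icc (0 : ℝ) 1,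
      ‖P t (EuclideanSpace.single j 1) i‖ ≤ C := by
    intro j i
    exact isCompact_Icc.exists_bound_of_continuousOn (hPa _ i).continuousOn
  choose C hC using h1
  have hC0 : ∀ j i, 0 ≤ C j i := fun j i =>
    (norm_nonneg _).trans (hC j i 0 ⟨le_rfl, zero_le_one⟩)
  refine ⟨∑ j, ∑ i, C j i, Finset.sum_nonneg (fun j _ => Finset.sum_nonneg (fun i _ => hC0 j i)),
    fun t ht x => ?_⟩
  have h2 : x = ∑ j, x j • EuclideanSpace.single j (1 : ℝ) := by
    have := (EuclideanSpace.basisFun (Fin n) ℝ).sum_repr x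
    simpa using this.symm
  have h3 : ∀ y : EuclideanSpace ℝ (Fin m), ‖y‖ ≤ ∑ i, ‖y i‖ := by
    intro y
    have : y = ∑ i, y i • EuclideanSpace.single i (1 : ℝ) := by
      have := (EuclideanSpace.basisFun (Fin m) ℝ).sum_repr y
      simpa using this.symm
    conv_lhs => rw [this]
    refine (norm_sum_le _ _).trans (Finset.sum_le_sum (fun i _ => ?_))
    rw [norm_smul]
    simp
  conv_lhs => rw [h2, map_sum]
  refine (norm_sum_le _ _).trans ?_
  rw [Finset.sum_mul]
  refine Finset.sum_le_sum (fun j _ => ?_)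
  rw [map_smul, norm_smul, mul_comm]
  refine mul_le_mul ((h3 _).trans (Finset.sum_le_sum (fun i _ => hC j i t ht)))
    (PiLp.norm_apply_le x j) (norm_nonneg _) (Finset.sum_nonneg (fun i _ => hC0 j i))

set_option maxHeartbeats 4000000 in
/-- **Uniform sublevel estimate for subspaces.** -/
theorem sublevel_subspace (hmn : m ≤ n)
    (P : ℝ → (EuclideanSpace ℝ (Fin n) →ₗ[ℝ] EuclideanSpace ℝ (Fin m)))
    (hPa : AnalyticFamily P) (hP : SubspaceNondegenerate P) :
    ∃ (K : ℕ) (C c0 : ℝ), 0 ≤ C ∧ 0 < c0 ∧ ∀ V : Submodule ℝ (EuclideanSpace ℝ (Fin n)),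
      finrank ℝ V ≤ m → ∀ τ : ℝ, 0 < τ → τ ≤ 1 → ∃ D : Set ℝ, MeasurableSet D ∧
        volume D ≤ ENNReal.ofReal (C * τ) ∧
        ∀ t ∈ Icc (0 : ℝ) 1, t ∉ D → ∀ v ∈ V, c0 * τ ^ K * ‖v‖ ≤ ‖P t v‖ := by
  classical
  obtain ⟨M, hM0, hM⟩ := bounded_entries P hPa
  obtain ⟨K, C, c0, hC, hc0, hsub⟩ := sublevel_uniform (X := Frames n m)
    (ι := Equiv.Perm (Fin m) × (Fin m → Fin n))
    (fun a X => ((Equiv.Perm.sign a.1 : ℤ) : ℝ) * (∏ i, X.1 i (a.2 i)))
    (fun a t => ∏ i, P t (EuclideanSpace.single (a.2 i) 1) (a.1 i))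
    (by
      intro a
      refine continuous_const.mul (continuous_finsetProd _ (fun i _ => ?_))
      exact (EuclideanSpace.proj (𝕜 := ℝ) (a.2 i)).continuous.comp
        ((continuous_apply i).comp continuous_subtype_val))
    (by
      intro a
      exact Finset.analyticOn_fun_prod _ (fun i _ => hPa _ _))
    (by
      intro X t ht hev
      refine det_ne_zero_near P hP X.1 X.2 t ht ?_
      filter_upwards [hev] with s hs
      rw [det_expand]
      exact hs)
  -- bound of the adjugate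
  set A : ℝ := Nat.factorial m * (max M 1) ^ m with hA
  have hAbd : ∀ t ∈ Icc (0 : ℝ) 1, ∀ X : Fin m → EuclideanSpace ℝ (Fin n), Orthonormal ℝ X →
      ∀ i j, |(frameMat (P t) X).adjugate i j| ≤ A := by
    intro t ht X hX i j
    rw [Matrix.adjugate_apply]
    have h1 := Matrix.det_le (abv := (AbsoluteValue.abs : AbsoluteValue ℝ ℝ))
      (A := (frameMat (P t) X).updateRow j (Pi.single i 1)) (x := max M 1) ?_
    · simpa [hA, nsmul_eq_mul] using h1
    · intro a b
      simp only [AbsoluteValue.abs_apply, Matrix.updateRow_apply]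
      split_ifs with hab
      · refine le_trans ?_ (le_max_right _ _)
        rw [Pi.single_apply]
        split_ifs <;> simp
      · refine le_trans ?_ (le_max_left _ _)
        have h2 : ‖P t (X b)‖ ≤ M := by
          have := hM t ht (X b)
          rwa [hX.1 b, mul_one] at this
        have h3 := PiLp.norm_apply_le (P t (X b)) a
        exact (by simpa [frameMat] using h3 : |frameMat (P t) X a b| ≤ ‖P t (X b)‖).trans h2
  have hApos : 0 < A := by positivity
  set M' : ℝ := m * (m * A) + 1 with hM'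
  have hM'pos : 0 < M' := by positivity
  refine ⟨K, C, c0 / M', hC, by positivity, fun V hV τ h1 h2 => ?_⟩
  obtain ⟨X, hX, hVX⟩ := exists_frame hmn V hV
  refine ⟨toMeasurable volume {t ∈ Icc (0 : ℝ) 1 | |(frameMat (P t) X).det| < c0 * τ ^ K},
    measurableSet_toMeasurable _ _, ?_, ?_⟩
  · rw [measure_toMeasurable]
    have h3 := hsub ⟨X, hX⟩ τ h1 h2
    refine le_trans (measure_mono ?_) h3
    rintro t ⟨ht1, ht2⟩
    refine ⟨ht1, ?_⟩
    rw [det_expand] at ht2
    exact ht2
  · intro t ht htD v hv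
    have h4 : c0 * τ ^ K ≤ |(frameMat (P t) X).det| := by
      by_contra hcon
      exact htD (subset_toMeasurable _ _ ⟨ht, not_le.1 hcon⟩)
    have h5 := det_le (P t) X hX A (hAbd t ht X hX) v (hVX hv)
    have h6 : c0 * τ ^ K * ‖v‖ ≤ M' * ‖P t v‖ := by
      calc c0 * τ ^ K * ‖v‖ ≤ |(frameMat (P t) X).det| * ‖v‖ := by gcongr
        _ ≤ (m * (m * A)) * ‖P t v‖ := h5
        _ ≤ M' * ‖P t v‖ := by
            gcongr
            rw [hM']
            linarith
    rw [div_mul_eq_mul_div, div_mul_eq_mul_div, div_le_iff₀ hM'pos]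
    linarith

end RPF
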