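import Mathlib
import Pool.Agent.RPF.Geom
import Pool.Agent.RPF.Dim

/-!
# Bad scales at a fixed asymptotically flat point
-/

namespace RPF

open Set MeasureTheory Filter Metric Module
open scoped Topology ENNReal NNReal

/-- `⌊log₂ k⌋ + 1` -/
noncomputable def ell (k : ℕ) : ℝ := (Nat.log 2 k : ℝ) + 1

lemma ell_ge_one (k : ℕ) : 1 ≤ ell k := by
  unfold ell
  have : (0 : ℝ) ≤ (Nat.log 2 k : ℝ) := Nat.cast_nonneg _
  linarith

lemma ell_pos (k : ℕ) : 0 < ell k := lt_of_lt_of_le one_pos (ell_ge_one k)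

lemma ell_mono {k l : ℕ} (h : k ≤ l) : ell k ≤ ell l := by
  unfold ell
  have : Nat.log 2 k ≤ Nat.log 2 l := Nat.log_mono_right h
  have h2 : (Nat.log 2 k : ℝ) ≤ (Nat.log 2 l : ℝ) := by exact_mod_cast this
  linarith

lemma tendsto_ell : Tendsto ell atTop atTop := by
  rw [tendsto_atTop_atTop]
  intro b
  refine ⟨2 ^ (⌈b⌉₊), fun k hk => ?_⟩
  have h1 : ⌈b⌉₊ ≤ Nat.log 2 k := Nat.le_log_of_pow_le (by norm_num) hk
  have h2 : b ≤ (⌈b⌉₊ : ℝ) := Nat.le_ceil b
  have h3 : ((⌈b⌉₊ : ℕ) : ℝ) ≤ (Nat.log 2 k : ℝ) := by exact_mod_cast h1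
  unfold ell
  linarith

lemma ell_le (k : ℕ) : ell k ≤ (k : ℝ) + 1 := by
  unfold ell
  have : Nat.log 2 k ≤ k := Nat.log_le_self 2 k
  have h2 : (Nat.log 2 k : ℝ) ≤ (k : ℝ) := by exact_mod_cast this
  linarith

lemma summable_ell : Summable (fun k : ℕ => 1 / (((k : ℝ) + 1) * ell k ^ 2)) := by
  rw [← summable_condensed_iff_of_nonneg]
  · have h1 : Summable (fun j : ℕ => 1 / ((j : ℝ) + 1) ^ 2) := by
      have := (summable_nat_add_iff 1).2 (Real.summable_one_div_nat_pow.2 (by norm_num : 1 < 2))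
      simpa using this
    refine Summable.of_nonneg_of_le (fun j => ?_) (fun j => ?_) h1
    · have := ell_pos (2 ^ j)
      positivity
    · have h2 : ell (2 ^ j) = (j : ℝ) + 1 := by
        unfold ell
        rw [Nat.log_pow (by norm_num)]
      have h3 : (0 : ℝ) < (j : ℝ) + 1 := by positivity
      rw [h2]
      push_cast
      rw [mul_one_div, div_le_div_iff₀ (by positivity) (by positivity)]
      have : (0 : ℝ) < ((j : ℝ) + 1) ^ 2 := by positivity
      nlinarith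
  · intro k
    have := ell_pos k
    positivity
  · intro k l _ hkl
    have h1 := ell_pos k
    have h2 := ell_mono hkl
    have h3 : (k : ℝ) ≤ l := by exact_mod_cast hkl
    apply one_div_le_one_div_of_le (by positivity)
    gcongr

/-- Kronecker type lemma. -/
lemma kron (a : ℕ → ℝ) (ha0 : ∀ k, 0 ≤ a k) (ha1 : ∀ k, a k ≤ 1)
    (hs : Summable (fun k : ℕ => a k / ((k : ℝ) + 1))) (ε : ℝ) (hε : 0 < ε) :
    ∀ᶠ K : ℕ in atTop, ∑ k ∈ Finset.range K, a k ≤ ε * K := by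
  set f : ℕ → ℝ := fun k => a k / ((k : ℝ) + 1) with hf
  have hf0 : ∀ k, 0 ≤ f k := fun k => div_nonneg (ha0 k) (by positivity)
  have h1 := tendsto_sum_nat_add f
  have h2 : ∀ᶠ i in atTop, ∑' k, f (k + i) < ε / 2 := h1.eventually_lt_const (by positivity)
  obtain ⟨k2, hk2⟩ := h2.exists
  have h3 : ∀ᶠ K : ℕ in atTop, (k2 : ℝ) ≤ ε / 2 * K := by
    have : Tendsto (fun K : ℕ => ε / 2 * (K : ℝ)) atTop atTop :=
      tendsto_natCast_atTop_atTop.const_mul_atTop (by positivity)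
    exact this.eventually_ge_atTop _
  filter_upwards [h3, eventually_ge_atTop k2] with K hK hKk
  have hsplit : ∑ k ∈ Finset.range K, a k =
      ∑ k ∈ Finset.range k2, a k + ∑ k ∈ Finset.Ico k2 K, a k :=
    (Finset.sum_range_add_sum_Ico _ hKk).symm
  have h4 : ∑ k ∈ Finset.range k2, a k ≤ k2 := by
    calc ∑ k ∈ Finset.range k2, a k ≤ ∑ _k ∈ Finset.range k2, (1 : ℝ) :=
          Finset.sum_le_sum (fun k _ => ha1 k)
      _ = k2 := by simp
  have h5 : ∑ k ∈ Finset.Ico k2 K, a k ≤ K * (ε / 2) := by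
    calc ∑ k ∈ Finset.Ico k2 K, a k ≤ ∑ k ∈ Finset.Ico k2 K, K * f k := by
          refine Finset.sum_le_sum (fun k hk => ?_)
          rw [Finset.mem_Ico] at hk
          have h6 : (k : ℝ) + 1 ≤ K := by exact_mod_cast hk.2
          have h7 : (0 : ℝ) < (k : ℝ) + 1 := by positivity
          have h8 : a k = ((k : ℝ) + 1) * f k := by
            rw [hf]
            field_simp
          rw [h8]
          exact mul_le_mul_of_nonneg_right h6 (hf0 k)
      _ = K * ∑ k ∈ Finset.Ico k2 K, f k := by rw [Finset.mul_sum]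
      _ ≤ K * (ε / 2) := by
          gcongr
          rw [Finset.sum_Ico_eq_sum_range]
          refine le_trans ?_ hk2.le
          have h9 : Summable (fun k => f (k + k2)) := (summable_nat_add_iff k2).2 hs
          calc ∑ k ∈ Finset.range (K - k2), f (k2 + k)
              = ∑ k ∈ Finset.range (K - k2), f (k + k2) :=
                Finset.sum_congr rfl (fun k _ => by rw [add_comm])
            _ ≤ ∑' k, f (k + k2) := h9.sum_le_tsum _ (fun k _ => hf0 _)
  rw [hsplit]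
  linarith

variable {n m : ℕ}

/-- eventually the flatness error is negligible -/
lemma eventually_thr (κ : ℕ) (C c0 M lam : ℝ) (hC : 0 ≤ C) (hc0 : 0 < c0) (hM : 0 ≤ M)
    (hlam : 0 < lam) (hlam2 : 2 * lam < 1) :
    ∀ᶠ k : ℕ in atTop, C / ell k ^ (2 * κ + 1) ≤ 1 / 8 ∧
      lam ^ k ≤ (2 : ℝ)⁻¹ ^ k * (c0 * (1 / ell k ^ 2) ^ κ * (1 / 8 - C / ell k ^ (2 * κ + 1)) -
        M * (C / ell k ^ (2 * κ + 1))) := by
  have h1 : Tendsto (fun k : ℕ => C / ell k) atTop (𝓝 0) := by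
    exact tendsto_ell.const_div_atTop C
  have h2 : Tendsto (fun k : ℕ => ((k : ℝ) + 1) ^ (2 * κ) * (2 * lam) ^ k) atTop (𝓝 0) := by
    have h3 := tendsto_pow_const_mul_const_pow_of_abs_lt_one (2 * κ)
      (r := 2 * lam) (by rw [abs_of_pos (by positivity)]; exact hlam2)
    have h4 := (tendsto_add_atTop_iff_nat (f := fun n : ℕ => (n : ℝ) ^ (2 * κ) * (2 * lam) ^ n) 1).2
      h3
    have h5 := h4.const_mul (2 * lam)⁻¹
    rw [mul_zero] at h5
    refine h5.congr (fun k => ?_)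
    have h6 : (2 * lam) ≠ 0 := by positivity
    push_cast
    rw [pow_succ (2 * lam) k]
    field_simp
  have h3 : ∀ᶠ k : ℕ in atTop, C / ell k < min (1 / 8) (c0 / 32 / (c0 + M + 1)) :=
    h1.eventually_lt_const (by positivity)
  have h4 : ∀ᶠ k : ℕ in atTop, ((k : ℝ) + 1) ^ (2 * κ) * (2 * lam) ^ k < c0 / 16 :=
    h2.eventually_lt_const (by positivity)
  filter_upwards [h3, h4] with k hk3 hk4
  have hl1 := ell_ge_one k
  have hl0 := ell_pos k
  have hβ : C / ell k ^ (2 * κ + 1) ≤ C / ell k := by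
    apply div_le_div_of_nonneg_left hC hl0
    calc ell k = ell k ^ 1 := (pow_one _).symm
      _ ≤ ell k ^ (2 * κ + 1) := pow_le_pow_right₀ hl1 (by omega)
  have hk5 := (lt_min_iff.1 hk3).1
  have hk6 := (lt_min_iff.1 hk3).2
  refine ⟨by linarith, ?_⟩
  set L := ell k with hL
  have hL2 : 0 < L ^ (2 * κ) := by positivity
  have hkey : L ^ (2 * κ) * (c0 * (1 / L ^ 2) ^ κ * (1 / 8 - C / L ^ (2 * κ + 1)) -
        M * (C / L ^ (2 * κ + 1))) = c0 * (1 / 8 - C / L ^ (2 * κ + 1)) - M * (C / L) := by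
    have h5 : (1 / L ^ 2) ^ κ = 1 / L ^ (2 * κ) := by rw [one_div_pow, ← pow_mul]
    rw [h5, pow_succ]
    field_simp
  have h6 : c0 / 16 ≤ c0 * (1 / 8 - C / L ^ (2 * κ + 1)) - M * (C / L) := by
    have h7 : (c0 + M + 1) * (C / L) ≤ c0 / 32 := by
      have := hk6.le
      rw [le_div_iff₀ (by positivity)] at this
      linarith
    have h8 : 0 ≤ C / L := by positivity
    have h9 : c0 * (C / L ^ (2 * κ + 1)) ≤ c0 * (C / L) := by gcongr
    nlinarith
  have h7 : L ^ (2 * κ) * (2 * lam) ^ k ≤ c0 / 16 := by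
    refine le_trans ?_ hk4.le
    gcongr
    exact ell_le k
  have h8 : L ^ (2 * κ) * (2 * lam) ^ k ≤ L ^ (2 * κ) *
      (c0 * (1 / L ^ 2) ^ κ * (1 / 8 - C / L ^ (2 * κ + 1)) - M * (C / L ^ (2 * κ + 1))) := by
    rw [hkey]
    linarith
  have h9 := le_of_mul_le_mul_left h8 hL2
  calc lam ^ k = (2 : ℝ)⁻¹ ^ k * (2 * lam) ^ k := by
        rw [← mul_pow]
        congr 1
        ring
    _ ≤ _ := by gcongr

/-- At an asymptotically flat point almost every time has few bad scales. -/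
theorem few_bad (P : ℝ → (EuclideanSpace ℝ (Fin n) →ₗ[ℝ] EuclideanSpace ℝ (Fin m)))
    (M : ℝ) (hM : 0 ≤ M)
    (hPM : ∀ t ∈ Icc (0 : ℝ) 1, ∀ x : EuclideanSpace ℝ (Fin n), ‖P t x‖ ≤ M * ‖x‖)
    (κ : ℕ) (C1 c0 : ℝ) (hC1 : 0 ≤ C1) (hc0 : 0 < c0)
    (hsub : ∀ V : Submodule ℝ (EuclideanSpace ℝ (Fin n)),
      finrank ℝ V ≤ m → ∀ τ : ℝ, 0 < τ → τ ≤ 1 → ∃ D : Set ℝ, MeasurableSet D ∧
        volume D ≤ ENNReal.ofReal (C1 * τ) ∧
        ∀ t ∈ Icc (0 : ℝ) 1, t ∉ D → ∀ v ∈ V, c0 * τ ^ κ * ‖v‖ ≤ ‖P t v‖)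
    (B : Set (EuclideanSpace ℝ (Fin n))) (x : EuclideanSpace ℝ (Fin n))
    (hx : AsympFlat m (2 * κ + 1) B x) (lam : ℝ) (hlam : 0 < lam) (hlam2 : 2 * lam < 1)
    (δ : ℝ) (hδ : 0 < δ) :
    ∀ᵐ t ∂(volume.restrict (Icc (0 : ℝ) 1)), ∃ k1 : ℕ, ∀ K : ℕ, k1 ≤ K →
      (badCount (P t) B lam x K : ℝ) ≤ δ * K := by
  classical
  obtain ⟨C, hC⟩ := hx
  set β : ℕ → ℝ := fun k => C / ((Nat.log 2 k : ℝ) + 1) ^ (2 * κ + 1) with hβ
  set β' : ℕ → ℝ := fun k => |C| / ell k ^ (2 * κ + 1) with hβ'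
  have hββ' : ∀ k, β k ≤ β' k := fun k => by
    have := ell_pos k
    simp only [hβ, hβ', ell]
    gcongr
    exact le_abs_self C
  have hτ : ∀ k, 0 < 1 / ell k ^ 2 ∧ 1 / ell k ^ 2 ≤ 1 := fun k => by
    have h1 := ell_ge_one k
    have h0 := ell_pos k
    refine ⟨by positivity, ?_⟩
    rw [div_le_one (by positivity)]
    exact one_le_pow₀ h1
  -- the bad sets of times
  have hD : ∀ k, ∃ D : Set ℝ, MeasurableSet D ∧
      volume D ≤ ENNReal.ofReal (C1 * (1 / ell k ^ 2)) ∧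
      (FlatAtScale m B x k (β k) → ∀ t ∈ Icc (0 : ℝ) 1, t ∉ D →
        ∀ y ∈ B, (2 : ℝ)⁻¹ ^ (k + 3) < ‖y - x‖ → ‖y - x‖ < (2 : ℝ)⁻¹ ^ k → β' k ≤ 1 / 8 →
        (2 : ℝ)⁻¹ ^ k * (c0 * (1 / ell k ^ 2) ^ κ * (1 / 8 - β' k) - M * β' k) ≤
          ‖P t (y - x)‖) := by
    intro k
    by_cases hf : FlatAtScale m B x k (β k)
    · obtain ⟨V, hVm, hV⟩ := hf
      obtain ⟨D, hDm, hDv, hDV⟩ := hsub V hVm (1 / ell k ^ 2) (hτ k).1 (hτ k).2
      refine ⟨D, hDm, hDv, fun _ t ht htD y hy hy1 hy2 hβ8 => ?_⟩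
      obtain ⟨v, hvV, hv⟩ := hV y hy hy2.le
      have h2k : (0 : ℝ) < (2 : ℝ)⁻¹ ^ k := by positivity
      have hv' : ‖y - x - v‖ ≤ β' k * (2 : ℝ)⁻¹ ^ k :=
        hv.trans (mul_le_mul_of_nonneg_right (hββ' k) h2k.le)
      have h1 := hDV t ht htD v hvV
      have h2 : ‖y - x‖ - β' k * (2 : ℝ)⁻¹ ^ k ≤ ‖v‖ := by
        have h3 : ‖y - x‖ ≤ ‖y - x - v‖ + ‖v‖ := by
          have := norm_add_le (y - x - v) v
          rwa [sub_add_cancel] at this
        linarith
      have h3 : ‖P t (y - x - v)‖ ≤ M * (β' k * (2 : ℝ)⁻¹ ^ k) :=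
        (hPM t ht _).trans (mul_le_mul_of_nonneg_left hv' hM)
      have h4 : ‖P t v‖ ≤ ‖P t (y - x)‖ + ‖P t (y - x - v)‖ := by
        have h5 : P t v = P t (y - x) - P t (y - x - v) := by
          rw [← map_sub]
          congr 1
          abel
        rw [h5]
        exact norm_sub_le _ _
      have h5 : (2 : ℝ)⁻¹ ^ (k + 3) = (2 : ℝ)⁻¹ ^ k * (1 / 8) := by
        rw [pow_add]
        norm_num
      have h6 : (2 : ℝ)⁻¹ ^ k * (1 / 8 - β' k) ≤ ‖v‖ := by
        rw [h5] at hy1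
        linarith
      have h7 : c0 * (1 / ell k ^ 2) ^ κ * ((2 : ℝ)⁻¹ ^ k * (1 / 8 - β' k)) ≤ ‖P t v‖ := by
        refine le_trans ?_ h1
        have := (hτ k).1
        gcongr
      have h8 : (2 : ℝ)⁻¹ ^ k * (c0 * (1 / ell k ^ 2) ^ κ * (1 / 8 - β' k) - M * β' k) =
          c0 * (1 / ell k ^ 2) ^ κ * ((2 : ℝ)⁻¹ ^ k * (1 / 8 - β' k)) -
            M * (β' k * (2 : ℝ)⁻¹ ^ k) := by ring
      rw [h8]
      linarith
    · exact ⟨∅, MeasurableSet.empty, by simp, fun h => absurd h hf⟩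
  choose D hDm hDv hDP using hD
  -- almost every time is in few of the bad sets
  have hint : ∑' k, (∫⁻ t, (D k).indicator (fun _ => ENNReal.ofReal (1 / ((k : ℝ) + 1))) t) <
      ⊤ := by
    have h1 : ∀ k, (∫⁻ t, (D k).indicator (fun _ => ENNReal.ofReal (1 / ((k : ℝ) + 1))) t) ≤
        ENNReal.ofReal (C1 * (1 / (((k : ℝ) + 1) * ell k ^ 2))) := by
      intro k
      rw [lintegral_indicator_const (hDm k)]
      calc ENNReal.ofReal (1 / ((k : ℝ) + 1)) * volume (D k)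
          ≤ ENNReal.ofReal (1 / ((k : ℝ) + 1)) * ENNReal.ofReal (C1 * (1 / ell k ^ 2)) := by
            gcongr
            exact hDv k
        _ = ENNReal.ofReal (C1 * (1 / (((k : ℝ) + 1) * ell k ^ 2))) := by
            rw [← ENNReal.ofReal_mul (by positivity)]
            congr 1
            have := ell_pos k
            field_simp
    refine lt_of_le_of_lt (ENNReal.tsum_le_tsum h1) ?_
    have h2 : Summable (fun k : ℕ => C1 * (1 / (((k : ℝ) + 1) * ell k ^ 2))) :=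
      summable_ell.mul_left C1
    rw [← ENNReal.ofReal_tsum_of_nonneg (fun k => by have := ell_pos k; positivity) h2]
    exact ENNReal.ofReal_lt_top
  have hae : ∀ᵐ t : ℝ, ∑' k, (D k).indicator (fun _ => ENNReal.ofReal (1 / ((k : ℝ) + 1))) t <
      ⊤ := by
    have hmeas : ∀ k, Measurable ((D k).indicator
        (fun _ : ℝ => ENNReal.ofReal (1 / ((k : ℝ) + 1)))) :=
      fun k => measurable_const.indicator (hDm k)
    apply ae_lt_top (Measurable.tsum hmeas)
    rw [lintegral_tsum (fun k => (hmeas k).aemeasurable)]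
    exact hint.ne
  have hae' : ∀ᵐ t ∂(volume.restrict (Icc (0 : ℝ) 1)),
      ∑' k, (D k).indicator (fun _ => ENNReal.ofReal (1 / ((k : ℝ) + 1))) t < ⊤ :=
    ae_restrict_of_ae hae
  filter_upwards [hae', ae_restrict_mem measurableSet_Icc] with t ht htI
  -- the real series
  set a : ℕ → ℝ := fun k => (D k).indicator (fun _ => (1 : ℝ)) t with ha
  have ha0 : ∀ k, 0 ≤ a k := fun k => indicator_nonneg (fun _ _ => zero_le_one) _
  have ha1 : ∀ k, a k ≤ 1 := fun k => by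
    simp only [ha, indicator_apply]
    split_ifs <;> simp
  have hsum : Summable (fun k : ℕ => a k / ((k : ℝ) + 1)) := by
    have h1 := ENNReal.summable_toReal ht.ne
    refine h1.congr (fun k => ?_)
    simp only [ha, indicator_apply]
    split_ifs
    · rw [ENNReal.toReal_ofReal (by positivity)]
    · simp
  have hkr := kron a ha0 ha1 hsum (δ / 4) (by positivity)
  -- exceptional scales
  have hexc : ∀ᶠ K : ℕ in atTop,
      ({k : ℕ | k < K ∧ ¬ FlatAtScale m B x k (β k)}.ncard : ℝ) ≤ δ / 4 * K := by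
    have h1 : ∀ᶠ K : ℕ in atTop,
        ({k : ℕ | k < K ∧ ¬ FlatAtScale m B x k (β k)}.ncard : ℝ) / K < δ / 4 :=
      hC.eventually_lt_const (by positivity)
    filter_upwards [h1, eventually_gt_atTop 0] with K hK hK0
    have : (0 : ℝ) < K := by exact_mod_cast hK0
    rw [div_lt_iff₀ this] at hK
    exact hK.le
  have hthr := eventually_thr κ |C| c0 M lam (abs_nonneg C) hc0 hM hlam hlam2
  obtain ⟨k2, hk2⟩ := eventually_atTop.1 hthr
  have hk2K : ∀ᶠ K : ℕ in atTop, (k2 : ℝ) ≤ δ / 4 * K := by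
    have : Tendsto (fun K : ℕ => δ / 4 * (K : ℝ)) atTop atTop :=
      tendsto_natCast_atTop_atTop.const_mul_atTop (by positivity)
    exact this.eventually_ge_atTop _
  obtain ⟨k1, hk1⟩ := eventually_atTop.1 (hkr.and (hexc.and hk2K))
  refine ⟨k1, fun K hK => ?_⟩
  obtain ⟨e1, e2, e3⟩ := hk1 K hK
  -- count
  have hcount : badCount (P t) B lam x K ≤
      {k : ℕ | k < K ∧ ¬ FlatAtScale m B x k (β k)}.ncard + k2 +
        ((Finset.range K).filter (fun k => t ∈ D k)).card := by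
    have h1 : {k : ℕ | k < K ∧ ¬ FlatAtScale m B x k (β k)} =
        (((Finset.range K).filter (fun k => ¬ FlatAtScale m B x k (β k)) : Finset ℕ) : Set ℕ) := by
      ext k
      simp
    rw [h1, Set.ncard_coe_finset]
    rw [badCount]
    have h2 : (Finset.range K).filter (fun k => ¬ Good (P t) B lam x k) ⊆
        ((Finset.range K).filter (fun k => ¬ FlatAtScale m B x k (β k)) ∪ Finset.range k2) ∪
          (Finset.range K).filter (fun k => t ∈ D k) := by
      intro k hk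
      rw [Finset.mem_filter] at hk
      rw [Finset.mem_union, Finset.mem_union, Finset.mem_filter, Finset.mem_filter,
        Finset.mem_range, Finset.mem_range]
      by_contra hcon
      push Not at hcon
      obtain ⟨⟨hc1, hc2⟩, hc3⟩ := hcon
      have hkK : k < K := Finset.mem_range.1 hk.1
      apply hk.2
      intro y hy hy1 hy2
      obtain ⟨f1, f2⟩ := hk2 k hc2
      have h3 := hDP k (hc1 hkK) t htI (hc3 hkK) y hy hy1 hy2 f1
      exact f2.trans h3
    calc ((Finset.range K).filter (fun k => ¬ Good (P t) B lam x k)).card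
        ≤ _ := Finset.card_le_card h2
      _ ≤ _ := Finset.card_union_le _ _
      _ ≤ _ := by
          gcongr
          refine (Finset.card_union_le _ _).trans ?_
          rw [Finset.card_range]
  have hDsum : (((Finset.range K).filter (fun k => t ∈ D k)).card : ℝ) =
      ∑ k ∈ Finset.range K, a k := by
    rw [Finset.card_filter]
    push_cast
    refine Finset.sum_congr rfl (fun k _ => ?_)
    simp only [ha, indicator_apply]
  have hcount' : (badCount (P t) B lam x K : ℝ) ≤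
      ({k : ℕ | k < K ∧ ¬ FlatAtScale m B x k (β k)}.ncard : ℝ) + k2 +
        ∑ k ∈ Finset.range K, a k := by
    rw [← hDsum]
    exact_mod_cast hcount
  linarith

end RPF
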