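import Mathlib
import Pool.Agent.RPF.Point

/-!
# Asymptotically flat `s`-sets keep their dimension
-/

namespace RPF

open Set MeasureTheory Filter Metric Module
open scoped Topology ENNReal NNReal

variable {n m : ℕ}

/-- goodness can be tested on a dense subset -/
lemma good_iff_dense {E F : Type*} [NormedAddCommGroup E] [NormedSpace ℝ E]
    [FiniteDimensional ℝ E] [NormedAddCommGroup F] [NormedSpace ℝ F]
    (L : E →ₗ[ℝ] F) (B D : Set E) (hDB : D ⊆ B) (hD : B ⊆ closure D) (lam : ℝ) (x : E) (k : ℕ) :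
    Good L B lam x k ↔ Good L D lam x k := by
  constructor
  · intro h y hy
    exact h y (hDB hy)
  · intro h y hy h1 h2
    have hLc : Continuous L := L.continuous_of_finiteDimensional
    by_contra hcon
    rw [not_le] at hcon
    have hopen : IsOpen {y : E | (2 : ℝ)⁻¹ ^ (k + 3) < ‖y - x‖ ∧ ‖y - x‖ < (2 : ℝ)⁻¹ ^ k ∧
        ‖L (y - x)‖ < lam ^ k} := by
      have hn : Continuous (fun y : E => ‖y - x‖) := by fun_prop
      have hLn : Continuous (fun y : E => ‖L (y - x)‖) :=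
        (hLc.comp (continuous_id.sub continuous_const)).norm
      exact (isOpen_lt continuous_const hn).inter
        ((isOpen_lt hn continuous_const).inter (isOpen_lt hLn continuous_const))
    obtain ⟨z, hz, hzD⟩ := mem_closure_iff.1 (hD hy) _ hopen ⟨h1, h2, hcon⟩
    exact absurd (h z hzD hz.1 hz.2.1) (not_le.2 hz.2.2)

lemma continuous_apply_family
    (Q : ℝ → (EuclideanSpace ℝ (Fin n) →ₗ[ℝ] EuclideanSpace ℝ (Fin m)))
    (hQ : ∀ (x : EuclideanSpace ℝ (Fin n)) (i : Fin m), Continuous (fun t => Q t x i)) :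
    Continuous (fun p : ℝ × EuclideanSpace ℝ (Fin n) => Q p.1 p.2) := by
  classical
  have h1 : (fun p : ℝ × EuclideanSpace ℝ (Fin n) => Q p.1 p.2) = fun p =>
      ∑ j : Fin n, ∑ i : Fin m, (p.2 j * Q p.1 (EuclideanSpace.single j 1) i) •
        EuclideanSpace.single i (1 : ℝ) := by
    funext p
    have h2 : p.2 = ∑ j, p.2 j • EuclideanSpace.single j (1 : ℝ) := by
      have := (EuclideanSpace.basisFun (Fin n) ℝ).sum_repr p.2
      simpa using this.symm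
    have h3 : ∀ y : EuclideanSpace ℝ (Fin m), y = ∑ i, y i • EuclideanSpace.single i (1 : ℝ) := by
      intro y
      have := (EuclideanSpace.basisFun (Fin m) ℝ).sum_repr y
      simpa using this.symm
    conv_lhs => rw [h2, map_sum]
    refine Finset.sum_congr rfl (fun j _ => ?_)
    rw [map_smul]
    conv_lhs => rw [h3 (Q p.1 (EuclideanSpace.single j 1)), Finset.smul_sum]
    refine Finset.sum_congr rfl (fun i _ => ?_)
    rw [smul_smul]
  rw [h1]
  refine continuous_finsetSum _ (fun j _ => continuous_finsetSum _ (fun i _ => ?_))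
  have hpj : Continuous (fun v : EuclideanSpace ℝ (Fin n) => v j) :=
    (EuclideanSpace.proj (𝕜 := ℝ) j : EuclideanSpace ℝ (Fin n) →L[ℝ] ℝ).continuous
  have hc1 : Continuous (fun p : ℝ × EuclideanSpace ℝ (Fin n) =>
      p.2 j * Q p.1 (EuclideanSpace.single j 1) i) :=
    (hpj.comp continuous_snd).mul ((hQ (EuclideanSpace.single j 1) i).comp continuous_fst)
  exact hc1.smul continuous_const

lemma measurable_good
    (Q : ℝ → (EuclideanSpace ℝ (Fin n) →ₗ[ℝ] EuclideanSpace ℝ (Fin m)))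
    (hQ : ∀ (x : EuclideanSpace ℝ (Fin n)) (i : Fin m), Continuous (fun t => Q t x i))
    (B : Set (EuclideanSpace ℝ (Fin n))) (lam : ℝ) (k : ℕ) :
    MeasurableSet {p : EuclideanSpace ℝ (Fin n) × ℝ | Good (Q p.2) B lam p.1 k} := by
  obtain ⟨D, hDB, hDc, hD⟩ :=
    (TopologicalSpace.IsSeparable.of_separableSpace B).exists_countable_dense_subset
  have h1 : {p : EuclideanSpace ℝ (Fin n) × ℝ | Good (Q p.2) B lam p.1 k} =
      ⋂ y ∈ D, {p : EuclideanSpace ℝ (Fin n) × ℝ | (2 : ℝ)⁻¹ ^ (k + 3) < ‖y - p.1‖ →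
        ‖y - p.1‖ < (2 : ℝ)⁻¹ ^ k → lam ^ k ≤ ‖Q p.2 (y - p.1)‖} := by
    ext p
    rw [mem_ofPred_eq, good_iff_dense (Q p.2) B D hDB hD]
    simp only [Good, mem_iInter, mem_ofPred_eq]
  rw [h1]
  refine MeasurableSet.biInter hDc (fun y _ => ?_)
  have hc : Continuous (fun p : EuclideanSpace ℝ (Fin n) × ℝ => ‖Q p.2 (y - p.1)‖) :=
    ((continuous_apply_family Q hQ).comp
      (continuous_snd.prodMk (continuous_const.sub continuous_fst))).norm
  have hc2 : Continuous (fun p : EuclideanSpace ℝ (Fin n) × ℝ => ‖y - p.1‖) := by fun_prop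
  have m1 : MeasurableSet {p : EuclideanSpace ℝ (Fin n) × ℝ | (2 : ℝ)⁻¹ ^ (k + 3) < ‖y - p.1‖} :=
    (isOpen_lt continuous_const hc2).measurableSet
  have m2 : MeasurableSet {p : EuclideanSpace ℝ (Fin n) × ℝ | ‖y - p.1‖ < (2 : ℝ)⁻¹ ^ k} :=
    (isOpen_lt hc2 continuous_const).measurableSet
  have m3 : MeasurableSet {p : EuclideanSpace ℝ (Fin n) × ℝ | lam ^ k ≤ ‖Q p.2 (y - p.1)‖} :=
    (isClosed_le continuous_const hc).measurableSet
  have h2 : {p : EuclideanSpace ℝ (Fin n) × ℝ | (2 : ℝ)⁻¹ ^ (k + 3) < ‖y - p.1‖ →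
        ‖y - p.1‖ < (2 : ℝ)⁻¹ ^ k → lam ^ k ≤ ‖Q p.2 (y - p.1)‖} =
      {p : EuclideanSpace ℝ (Fin n) × ℝ | (2 : ℝ)⁻¹ ^ (k + 3) < ‖y - p.1‖}ᶜ ∪
        ({p : EuclideanSpace ℝ (Fin n) × ℝ | ‖y - p.1‖ < (2 : ℝ)⁻¹ ^ k}ᶜ ∪
          {p : EuclideanSpace ℝ (Fin n) × ℝ | lam ^ k ≤ ‖Q p.2 (y - p.1)‖}) := by
    ext p
    simp only [mem_ofPred_eq, mem_union, mem_compl_iff]
    tauto
  rw [h2]
  exact m1.compl.union (m2.compl.union m3)

lemma measurable_badCount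
    (Q : ℝ → (EuclideanSpace ℝ (Fin n) →ₗ[ℝ] EuclideanSpace ℝ (Fin m)))
    (hQ : ∀ (x : EuclideanSpace ℝ (Fin n)) (i : Fin m), Continuous (fun t => Q t x i))
    (B : Set (EuclideanSpace ℝ (Fin n))) (lam : ℝ) (K : ℕ) :
    Measurable (fun p : EuclideanSpace ℝ (Fin n) × ℝ => badCount (Q p.2) B lam p.1 K) := by
  classical
  have h1 : (fun p : EuclideanSpace ℝ (Fin n) × ℝ => badCount (Q p.2) B lam p.1 K) =
      fun p => ∑ k ∈ Finset.range K, if ¬ Good (Q p.2) B lam p.1 k then 1 else 0 := by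
    funext p
    rw [badCount, Finset.card_filter]
  rw [h1]
  refine Finset.measurable_fun_sum _ (fun k _ => ?_)
  exact Measurable.ite (measurable_good Q hQ B lam k).compl measurable_const measurable_const

lemma measurable_eventually
    (Q : ℝ → (EuclideanSpace ℝ (Fin n) →ₗ[ℝ] EuclideanSpace ℝ (Fin m)))
    (hQ : ∀ (x : EuclideanSpace ℝ (Fin n)) (i : Fin m), Continuous (fun t => Q t x i))
    (B : Set (EuclideanSpace ℝ (Fin n))) (lam δ : ℝ) :
    MeasurableSet {p : EuclideanSpace ℝ (Fin n) × ℝ | ∃ k1 : ℕ, ∀ K : ℕ, k1 ≤ K →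
      (badCount (Q p.2) B lam p.1 K : ℝ) ≤ δ * K} := by
  have h1 : {p : EuclideanSpace ℝ (Fin n) × ℝ | ∃ k1 : ℕ, ∀ K : ℕ, k1 ≤ K →
      (badCount (Q p.2) B lam p.1 K : ℝ) ≤ δ * K} =
      ⋃ k1 : ℕ, ⋂ K : ℕ, ⋂ _ : k1 ≤ K, {p : EuclideanSpace ℝ (Fin n) × ℝ |
        (badCount (Q p.2) B lam p.1 K : ℝ) ≤ δ * K} := by
    ext p
    simp only [mem_ofPred_eq, mem_iUnion, mem_iInter]
  rw [h1]
  refine MeasurableSet.iUnion (fun k1 => MeasurableSet.iInter (fun K =>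
    MeasurableSet.iInter (fun _ => ?_)))
  have h2 : Measurable (fun p : EuclideanSpace ℝ (Fin n) × ℝ =>
      (badCount (Q p.2) B lam p.1 K : ℝ)) :=
    (measurable_from_top (f := fun k : ℕ => (k : ℝ))).comp (measurable_badCount Q hQ B lam K)
  exact measurableSet_le h2 measurable_const

/-- parameters -/
noncomputable def lamj (j : ℕ) : ℝ := 1 / 2 - 1 / ((j : ℝ) + 4)

lemma lamj_pos (j : ℕ) : 0 < lamj j := by
  unfold lamj
  have : 1 / ((j : ℝ) + 4) ≤ 1 / 4 := by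
    apply one_div_le_one_div_of_le (by norm_num)
    linarith [(Nat.cast_nonneg j : (0 : ℝ) ≤ (j : ℝ))]
  linarith

lemma lamj_lt (j : ℕ) : 2 * lamj j < 1 := by
  unfold lamj
  have : 0 < 1 / ((j : ℝ) + 4) := by positivity
  linarith

lemma tendsto_lamj : Tendsto lamj atTop (𝓝 (1 / 2)) := by
  have h1 : Tendsto (fun j : ℕ => 1 / ((j : ℝ) + 4)) atTop (𝓝 0) := by
    have h2 := tendsto_one_div_add_atTop_nhds_zero_nat (𝕜 := ℝ)
    have h3 := (tendsto_add_atTop_iff_nat (f := fun j : ℕ => 1 / ((j : ℝ) + 1)) 3).2 h2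
    refine h3.congr (fun j => ?_)
    push_cast
    congr 1
    ring
  have h2 := (tendsto_const_nhds (x := (1 / 2 : ℝ))).sub h1
  rw [sub_zero] at h2
  exact h2

/-- **Asymptotically flat `s`-sets keep their dimension for almost every time.** -/
theorem s_set (P : ℝ → (EuclideanSpace ℝ (Fin n) →ₗ[ℝ] EuclideanSpace ℝ (Fin m)))
    (hPa : AnalyticFamily P) (κ : ℕ) (C1 c0 : ℝ) (hC1 : 0 ≤ C1) (hc0 : 0 < c0)
    (hsub : ∀ V : Submodule ℝ (EuclideanSpace ℝ (Fin n)),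
      finrank ℝ V ≤ m → ∀ τ : ℝ, 0 < τ → τ ≤ 1 → ∃ D : Set ℝ, MeasurableSet D ∧
        volume D ≤ ENNReal.ofReal (C1 * τ) ∧
        ∀ t ∈ Icc (0 : ℝ) 1, t ∉ D → ∀ v ∈ V, c0 * τ ^ κ * ‖v‖ ≤ ‖P t v‖)
    (B : Set (EuclideanSpace ℝ (Fin n))) (hB : MeasurableSet B) (s : ℝ≥0)
    (hs0 : μH[(s : ℝ)] B ≠ 0) (hs1 : μH[(s : ℝ)] B ≠ ∞)
    (hflat : ∀ᵐ x ∂((μH[(s : ℝ)] : Measure (EuclideanSpace ℝ (Fin n))).restrict B),
      AsympFlat m (2 * κ + 1) B x) :
    ∀ᵐ t ∂(volume.restrict (Icc (0 : ℝ) 1)), (s : ℝ≥0∞) ≤ dimH (P t '' B) := by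
  classical
  obtain ⟨M, hM0, hM⟩ := bounded_entries P hPa
  obtain ⟨N, hN1, hN⟩ := exists_halving (EuclideanSpace ℝ (Fin n))
  set μ := (μH[(s : ℝ)] : Measure (EuclideanSpace ℝ (Fin n))).restrict B with hμ
  have hfin : IsFiniteMeasure μ := ⟨by
    rw [hμ, Measure.restrict_apply_univ]
    exact lt_top_iff_ne_top.2 hs1⟩
  -- continuous extension
  set Q : ℝ → (EuclideanSpace ℝ (Fin n) →ₗ[ℝ] EuclideanSpace ℝ (Fin m)) :=
    fun t => P (projIcc (0 : ℝ) 1 zero_le_one t) with hQ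
  have hQP : ∀ t ∈ Icc (0 : ℝ) 1, Q t = P t := by
    intro t ht
    simp only [hQ]
    rw [projIcc_of_mem zero_le_one ht]
  have hQc : ∀ (x : EuclideanSpace ℝ (Fin n)) (i : Fin m), Continuous (fun t => Q t x i) := by
    intro x i
    have h1 : ContinuousOn (fun t => P t x i) (Icc (0 : ℝ) 1) := (hPa x i).continuousOn
    exact (continuousOn_iff_continuous_domRestrict.1 h1).comp continuous_projIcc
  -- for every parameter j
  have hj : ∀ j : ℕ, ∀ᵐ t ∂(volume.restrict (Icc (0 : ℝ) 1)), ∀ᵐ x ∂μ, ∃ k1 : ℕ, ∀ K : ℕ,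
      k1 ≤ K → (badCount (Q t) B (lamj j) x K : ℝ) ≤ 1 / ((j : ℝ) + 1) * K := by
    intro j
    rw [← Measure.ae_ae_comm (measurable_eventually Q hQc B (lamj j) (1 / ((j : ℝ) + 1)))]
    filter_upwards [hflat] with x hx
    have h1 := few_bad P M hM0 hM κ C1 c0 hC1 hc0 hsub B x hx (lamj j) (lamj_pos j) (lamj_lt j)
      (1 / ((j : ℝ) + 1)) (by positivity)
    filter_upwards [h1, ae_restrict_mem measurableSet_Icc] with t ht htI
    rw [hQP t htI]
    exact ht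
  filter_upwards [ae_all_iff.2 hj, ae_restrict_mem measurableSet_Icc] with t ht htI
  simp only [hQP t htI] at ht
  by_contra hcon
  rw [not_le] at hcon
  obtain ⟨d, hd1, hd2⟩ := ENNReal.lt_iff_exists_nnreal_btwn.1 hcon
  have hd2' : d < s := by exact_mod_cast hd2
  have hnull : μH[(d : ℝ)] (P t '' B) = 0 := hausdorffMeasure_of_dimH_lt hd1
  have hd0 : 0 < d := by
    by_contra h0
    have : d = 0 := le_antisymm (not_lt.1 h0) (by simp)
    rw [this] at hd1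
    simp at hd1
  have hs0' : 0 < (s : ℝ) := by
    have : (0 : ℝ) < d := by exact_mod_cast hd0
    have h2 : (d : ℝ) < s := by exact_mod_cast hd2'
    linarith
  -- choose j
  have hlim1 : Tendsto (fun j : ℕ => (N : ℝ) ^ (1 / ((j : ℝ) + 1)) * (2 : ℝ)⁻¹ ^ (s : ℝ)) atTop
      (𝓝 ((N : ℝ) ^ (0 : ℝ) * (2 : ℝ)⁻¹ ^ (s : ℝ))) := by
    refine Tendsto.mul_const _ ?_
    have hNpos : (0 : ℝ) < N := by exact_mod_cast hN1
    exact (Real.continuousAt_const_rpow hNpos.ne').tendsto.comp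
      tendsto_one_div_add_atTop_nhds_zero_nat
  have hlim2 : Tendsto (fun j : ℕ => (lamj j) ^ (d : ℝ)) atTop (𝓝 ((1 / 2 : ℝ) ^ (d : ℝ))) :=
    (Real.continuousAt_rpow_const _ _ (Or.inl (by norm_num))).tendsto.comp tendsto_lamj
  have hlt : (N : ℝ) ^ (0 : ℝ) * (2 : ℝ)⁻¹ ^ (s : ℝ) < (1 / 2 : ℝ) ^ (d : ℝ) := by
    rw [Real.rpow_zero, one_mul, one_div]
    apply Real.rpow_lt_rpow_of_exponent_gt (by norm_num) (by norm_num)
    exact_mod_cast hd2'
  obtain ⟨j, hjlt⟩ := (hlim1.eventually_lt hlim2 hlt).exists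
  -- the good sets
  set G : ℕ → Set (EuclideanSpace ℝ (Fin n)) := fun k1 =>
    {x ∈ B | ∀ K : ℕ, k1 ≤ K → (badCount (P t) B (lamj j) x K : ℝ) ≤ 1 / ((j : ℝ) + 1) * K}
    with hG
  have hGnull : ∀ k1, μH[(s : ℝ)] (G k1) = 0 := by
    intro k1
    have hl1 : lamj j < 1 := by linarith [lamj_lt j, lamj_pos j]
    exact null_transfer hN1 hN (P t) B (lamj j) (lamj_pos j) hl1 (1 / ((j : ℝ) + 1))
      (by positivity) k1 (G k1) (fun x hx => hx.1) (fun x hx => hx.2) d s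
      (by exact_mod_cast hd0) hs0' hjlt.le hnull
  have hUnull : μH[(s : ℝ)] (⋃ k1, G k1) = 0 := measure_iUnion_null hGnull
  have hcov : B ⊆ (⋃ k1, G k1) ∪ (B \ ⋃ k1, G k1) := by
    intro x hx
    by_cases h : x ∈ ⋃ k1, G k1
    · exact Or.inl h
    · exact Or.inr ⟨hx, h⟩
  have hrest : μH[(s : ℝ)] (B \ ⋃ k1, G k1) = 0 := by
    have h1 := ht j
    rw [hμ, ae_restrict_iff' hB] at h1
    refine measure_mono_null ?_ h1
    rintro x ⟨hxB, hxG⟩
    simp only [mem_compl_iff, mem_ofPred_eq]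
    intro h2
    obtain ⟨k1, hk1⟩ := h2 hxB
    exact hxG (mem_iUnion.2 ⟨k1, hxB, hk1⟩)
  exact hs0 (measure_mono_null hcov (measure_union_null hUnull hrest))

/-- **Main theorem.** -/
theorem main (hmn : m ≤ n)
    (P : ℝ → (EuclideanSpace ℝ (Fin n) →ₗ[ℝ] EuclideanSpace ℝ (Fin m)))
    (hPa : AnalyticFamily P) (hP : SubspaceNondegenerate P) :
    ∃ a : ℕ, ∀ (A : Set (EuclideanSpace ℝ (Fin n))) (B : ℕ → Set (EuclideanSpace ℝ (Fin n)))
      (s : ℕ → ℝ≥0), (∀ i, B i ⊆ A) → (∀ i, MeasurableSet (B i)) →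
      (∀ i, μH[(s i : ℝ)] (B i) ≠ 0 ∧ μH[(s i : ℝ)] (B i) ≠ ∞) →
      (∀ i, ∀ᵐ x ∂((μH[(s i : ℝ)] : Measure (EuclideanSpace ℝ (Fin n))).restrict (B i)),
        AsympFlat m a (B i) x) →
      dimH A ≤ ⨆ i, (s i : ℝ≥0∞) →
      ∀ᵐ t ∂(volume.restrict (Icc (0 : ℝ) 1)), dimH (P t '' A) = min (dimH A) m := by
  obtain ⟨κ, C1, c0, hC1, hc0, hsub⟩ := sublevel_subspace hmn P hPa hP
  refine ⟨2 * κ + 1, fun A B s hBA hBm hBs hflat hdim => ?_⟩
  have h1 : ∀ i, ∀ᵐ t ∂(volume.restrict (Icc (0 : ℝ) 1)), (s i : ℝ≥0∞) ≤ dimH (P t '' (B i)) :=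
    fun i => s_set P hPa κ C1 c0 hC1 hc0 hsub (B i) (hBm i) (s i) (hBs i).1 (hBs i).2 (hflat i)
  filter_upwards [ae_all_iff.2 h1] with t ht
  have hle : dimH (P t '' A) ≤ dimH A := by
    have hl : LipschitzWith ‖(LinearMap.toContinuousLinearMap (P t))‖₊ (P t) :=
      (LinearMap.toContinuousLinearMap (P t)).lipschitz
    exact hl.dimH_image_le A
  have hge : dimH A ≤ dimH (P t '' A) := by
    refine hdim.trans (iSup_le (fun i => ?_))
    exact (ht i).trans (dimH_mono (image_mono (hBA i)))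
  have hm : dimH (P t '' A) ≤ m := by
    refine (dimH_mono (subset_univ _)).trans ?_
    rw [Real.dimH_univ_eq_finrank]
    simp
  have heq : dimH (P t '' A) = dimH A := le_antisymm hle hge
  rw [heq] at hm ⊢
  exact (min_eq_left hm).symm

end RPF
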